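import Pool.Agent.Helper18.FM.GoalsC
import Pool.Agent.Helper27.TRB.Cor
import Pool.Agent.Helper45.RBC.AsmM

/-!
# FM: the data of HB (FOUT) and the main theorem
-/

open Complex Metric Set Filter Topology MeasureTheory
open scoped ContDiff ComplexConjugate ComplexOrder Manifold Matrix

namespace Pool.Agent.Helper18.FM

open Pool.Agent.Helper95.Lin Pool.Agent.Helper16.Abund Pool.Agent.Helper92.Orb
  Pool.Agent.Helper10.SP Pool.Agent.Helper95.RK Pool.Agent.Helper57.HS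
  Pool.Agent.Helper15.HS Pool.Agent.Helper10.HS Pool.Agent.Helper15.GS
  Pool.Agent.Helper57.RBC Pool.Agent.Helper45.RBC Pool.Agent.Helper82.HB
open Pool.Agent.Helper45.HS (SmM)
open Pool.Agent.Helper16.HS.AYTP (her_ket)
open Pool.Agent.Helper27.TRB (S_MAINP)

universe u v

/-- FOUT. -/
theorem fout (hPUE : S_PUE.{u}) (hVOLP : S_VOLP.{u}) (hFEX : S_FEX.{u}) (hFPV : S_FPV.{u})
    (hFNK : S_FNK.{u}) (hFVP : S_FVP.{u}) (hFB3 : S_FB3.{u}) (hKAPI : S_KAPI.{u})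
    (hRHOI : S_RHOI.{u}) : S_FOUT.{u} := by
  intro n m hn T G _ R H σ h χ c ψ D Γ C hC
  have hK := D.ket
  obtain ⟨κ, hκ⟩ := hPUE T R hK.et
  obtain ⟨r, X, P, s, N, φ, H', ε, Q, hL⟩ := hFPV hn T R H σ h χ c ψ D Γ C hC κ hκ
  obtain ⟨-, k, p, hk, hp, hV⟩ := hVOLP T R H hK κ hκ
    (fun e he => hFEX T R H σ h χ c ψ D H hK e he)
  have hkr : k ≤ r := hFNK hn T R H σ h χ c ψ D κ hκ k p hp hV r X P s N φ H' ε Q hL
  have hvol := hFVP hn T R H σ h χ c ψ D κ hκ k p hp hV r X P s N φ H' ε Q hL hkr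
  obtain ⟨h1, h2, -⟩ := hRHOI T R H hK.et (her_ket hK)
  have hchf := hL.par.par.chf
  have hinv := hL.par.par.inv
  obtain ⟨ψ', hψ', hpos⟩ := hFB3 hn T R H σ h χ c ψ D r P hL.par fun κ' hκ' => by
    rw [hKAPI T R hK.et κ' κ hκ' hκ (fun x => ((((1 + c : ℝ) : ℂ) • rho H x +
      gS (fun y => σ y * P y) h x).det.re)) ?_ ?_]
    · exact hvol
    · have h3 : SmM (fun x => ((1 + c : ℝ) : ℂ) • rho H x + gS (fun y => σ y * P y) h x) T := by
        refine SmM.add (X := fun x => ((1 + c : ℝ) : ℂ) • rho H x) (fun i j => ?_) hchf.smooth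
        have := h1.smooth i j
        exact contDiffOn_const.mul this
      exact Complex.continuous_re.comp_continuousOn h3.det.continuousOn
    · exact fun U τ hA x hx => det_density (Pool.Agent.Helper97.HS.invH_ad
        (Pool.Agent.Helper97.HS.invH_sm h2 ((1 + c : ℝ) : ℂ)) hinv) U τ hA x hx
  exact ⟨P, ψ', hK, hL.par.sdP, hψ', hpos⟩

/-- The main theorem FM. -/
theorem mainf (hFUN : S_FUN.{u, v}) (hFLK : S_FLK.{u, v}) (hFOUT : S_FOUT.{u})
    (hMAINP : S_MAINP.{u, v}) : S_MAINF.{u, v} := by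
  intro n m G M _ _ _ _ _ _ _ om g hD hgi v hv hvi c hc hsem hpos hb
  rcases Nat.eq_zero_or_pos n with hn | hn
  · subst hn
    exact orb_zero
  obtain ⟨T, E, σ, h, Γ, C, hE, hK, hσ, hh, hhs, hgE, hC, htr⟩ := hFUN hn hD v c hv hb
  obtain ⟨K, -, hT⟩ := hFLK hn hD hgi v hv hvi c hc hsem hpos T E σ h hE hK hσ hh hhs hgE htr
  obtain ⟨P, ψ', hH⟩ := hFOUT hn T _ _ σ h _ c _ hT Γ C hC
  exact hMAINP hn hD T E hE hK _ _ _ _ hH

end Pool.Agent.Helper18.FM
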