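import Pool.Agent.Helper18.FM.Defs

/-!
# FM, goals A: Chern–Lu, existence, minimising sequences, the weighted limit

Notation: `K = Q⁻¹`, `t = tS σ h Q = tr (g K)`, `g = gS σ h`. Almost all proofs are copies of landed ones with small changes:
the Kähler/HB version (`Helper82/HB`, `Helper57/HX`) handles the degenerate form `g` (with `NKs ≥ 0`), the TRB version
(`Helper27/TRB`) handles the twist `χ` (with nondegenerate `h`). Here `NKs ≥ 0` is replaced by `NKs + tr (χ K g K) ≥ 0` (`TRS` for `K = Q⁻¹`, `rfl`).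
-/

open Complex Metric Set Filter Topology MeasureTheory
open scoped ContDiff ComplexConjugate ComplexOrder Manifold Matrix

namespace Pool.Agent.Helper18.FM

open Pool.Agent.Helper95.Lin Pool.Agent.Helper16.Abund Pool.Agent.Helper92.Orb
  Pool.Agent.Helper10.SP Pool.Agent.Helper95.RK Pool.Agent.Helper57.HS
  Pool.Agent.Helper15.HS Pool.Agent.Helper15.GS Pool.Agent.Helper57.RBC Pool.Agent.Helper82.HB
open Pool.Agent.Helper10.RBC (dn)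
open Pool.Agent.Helper29.HB (WL)
open Pool.Agent.Helper27.TRB (tw)

universe u v

/-- FCL. The Chern–Lu identity along `σ`. COPY of `scl` (`Helper82/HB/SCL.lean`) with `SF` for `SD` (`SD.neg` is used there only in `nk_nonneg`). Same
hypotheses. -/
def S_FCL : Prop := ∀ {n m : ℕ} (T : Set (Cn n)) {G : Type u} [Group G]
  (R : G → Cn n → Cn n → Prop) (σ : Cn n → Matrix (Fin n) (Fin m) ℂ)
  (h : Cn n → Matrix (Fin m) (Fin m) ℂ), SF T R σ h →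
  ∀ Q η : Cn n → Matrix (Fin n) (Fin n) ℂ, KEt T R Q → (∀ x ∈ T, rho Q x = Q x - η x) →
  (∀ i j, ContDiffOn ℝ ∞ (fun x => gS σ h x i j) T) ∧ InvF T R (tS σ h Q) ∧
  ContinuousOn (AAs σ h Q) T ∧ ContinuousOn (NKs σ h Q) T ∧
  (∀ γ x y, R γ x y → AAs σ h Q y + NKs σ h Q y = AAs σ h Q x + NKs σ h Q x) ∧
  ∀ x ∈ T, (gS σ h x).PosSemidef ∧ 0 ≤ tS σ h Q x ∧ 0 ≤ AAs σ h Q x ∧
  (∀ k, cd k (fun y => ((tS σ h Q y : ℝ) : ℂ)) x =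
    Matrix.trace (tauS σ h Q k x * h x * (σ x)ᴴ * (Q x)⁻¹)) ∧
  (∀ l, cdbR l (fun y => h y * (σ y)ᴴ * (Q y)⁻¹) x = h x * (tauS σ h Q l x)ᴴ * (Q x)⁻¹) ∧
  (trL Q (tS σ h Q) x).re = - tS σ h Q x +
    (Matrix.trace (η x * (Q x)⁻¹ * gS σ h x * (Q x)⁻¹)).re + AAs σ h Q x + NKs σ h Q x ∧
  (∑ k, ∑ l, (Q x)⁻¹ l k * (cd k (fun y => ((tS σ h Q y : ℝ) : ℂ)) x *
    conj (cd l (fun y => ((tS σ h Q y : ℝ) : ℂ)) x))).re ≤ tS σ h Q x * AAs σ h Q x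

/-- FLG. The differential inequalities. Model `slg` (`Helper82/HB/SLG.lean`). PROOF. `FCL`: `trL Q t = - t + tr ((η - χ) K g K) + AAs + (NKs + tr (χ K g K)) ≥ - t + AAs`, as
`η - χ ≥ 0` and `TRS`. Then as in `slg`. USES: `FCL`, `CHN`. -/
def S_FLG : Prop := ∀ {n m : ℕ} (T : Set (Cn n)) {G : Type u} [Group G]
  (R : G → Cn n → Cn n → Prop) (σ : Cn n → Matrix (Fin n) (Fin m) ℂ)
  (h : Cn n → Matrix (Fin m) (Fin m) ℂ) (χ : Cn n → Matrix (Fin n) (Fin n) ℂ), SF T R σ h →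
  TRS T σ h χ → ∀ Q η : Cn n → Matrix (Fin n) (Fin n) ℂ, KEt T R Q →
  (∀ x ∈ T, (η x - χ x).PosSemidef) → (∀ x ∈ T, rho Q x = Q x - η x) →
  (∀ x ∈ T, - tS σ h Q x ≤ (trL Q (tS σ h Q) x).re) ∧
  ∀ δ : ℝ, 0 < δ → InvF T R (fun x => tS σ h Q x + δ) ∧ ∀ x ∈ T,
    -1 ≤ (trL Q (fun y => Real.log (tS σ h Q y + δ)) x).re

/-- FEX. Existence of the twisted Kähler–Einstein metrics for every background. PROOF. (1) `c = 0`: `χ = 0` on `T` (`chi`), so `NKs ≥ 0` (`TRS`), and `XDat T R H (gS σ h) ψ`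
(`Helper57/HX/Defs.lean`) holds: `cl` is `FCL` with `η = Q - rho Q`, `lcl` is `FLG` (`χ = 0`, `δ = 1`). Change of background `S_XBG`, then `S_XEX` (both landed, `Helper57/HX`; `t_XBG`, `t_XEX`). (2) `c > 0`: `rho H + LM ψ = χ/c ≥ 0`; the metric `ε H' + χ/c`
is in the class of `ε H' + rho H'` (`rho H' = rho H + LM (ld H' - ld H)`): `of_pot`, as in `tex` (`Helper27/TRB/Seq.lean`; no twist here). USES: `AYG`, `WIRT`, `RHOI`, `FCL`, `FLG`, `XBG`, `XEX`. -/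
def S_FEX : Prop := ∀ {n m : ℕ} (T : Set (Cn n)) {G : Type u} [Group G]
  (R : G → Cn n → Cn n → Prop) (H : Cn n → Matrix (Fin n) (Fin n) ℂ)
  (σ : Cn n → Matrix (Fin n) (Fin m) ℂ) (h : Cn n → Matrix (Fin m) (Fin m) ℂ)
  (χ : Cn n → Matrix (Fin n) (Fin n) ℂ) (c : ℝ) (ψ : Cn n → ℝ), FDat T R H σ h χ c ψ →
  ∀ H' : Cn n → Matrix (Fin n) (Fin n) ℂ, KEt T R H' → ∀ ε : ℝ, 0 < ε → ∃ Q, TKE T R H' ε Q

/-- FFM. The form `χ` is closed; the twisted background is in the family. COPY of `chi_chf`, `ket_tw`, `tfam` (`Helper27/TRB/Seq.lean`) with `μ := c`, `ψ := c ψ`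
(field `chi'`; for `c = 0` use `0 ≤ c`). USES: `WIRT`, `RHOI`. -/
def S_FFM : Prop := ∀ {n m : ℕ} (T : Set (Cn n)) {G : Type u} [Group G]
  (R : G → Cn n → Cn n → Prop) (H : Cn n → Matrix (Fin n) (Fin n) ℂ)
  (σ : Cn n → Matrix (Fin n) (Fin m) ℂ) (h : Cn n → Matrix (Fin m) (Fin m) ℂ)
  (χ : Cn n → Matrix (Fin n) (Fin n) ℂ) (c : ℝ) (ψ : Cn n → ℝ), FDat T R H σ h χ c ψ →
  CHF χ T ∧
  (∀ (H' : Cn n → Matrix (Fin n) (Fin n) ℂ) (ε : ℝ), KEt T R H' → 0 < ε →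
    KEt T R (tw χ ε H') ∧ ∀ x, (ε : ℂ) • tw χ ε H' x = (ε : ℂ) • H' x + χ x) ∧
  ∀ (N : ℝ) (φ : Cn n → ℝ) (H' : Cn n → Matrix (Fin n) (Fin n) ℂ), Fam T R H N φ H' →
  ∀ ε : ℝ, 0 < ε →
    Fam T R H (N + ε⁻¹ * c) (fun x => φ x + ε⁻¹ * (c * ψ x)) (tw χ ε H')

/-- FMON. The sharp bound. Model `tmon` (`Helper27/TRB/Seq.lean`) and the second part of `hvd` (`Helper57/HX/Hv.lean`; there `cs_tr` is used for the degenerate form). -/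
def S_FMON : Prop := ∀ {n m : ℕ} (T : Set (Cn n)) {G : Type u} [Group G]
  (R : G → Cn n → Cn n → Prop) (H' : Cn n → Matrix (Fin n) (Fin n) ℂ)
  (σ : Cn n → Matrix (Fin n) (Fin m) ℂ) (h : Cn n → Matrix (Fin m) (Fin m) ℂ)
  (χ : Cn n → Matrix (Fin n) (Fin n) ℂ), KEt T R H' → SF T R σ h → TRS T σ h χ →
  ∀ s : ℝ, SupB T (gS σ h) H' s → ∀ (ε : ℝ) (Q : Cn n → Matrix (Fin n) (Fin n) ℂ), 0 < ε →
  TKE T R (tw χ ε H') ε Q → ∀ x ∈ T, ε * tS σ h Q x ≤ s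

/-- FSEQ. The minimising sequences. Model `tseq` (`Helper27/TRB/Seq.lean`) and `xseq` (`Helper57/HX/Ex.lean`, degenerate `g`). USES: `FEX` (for `tw χ ε H'`, `FFM`), `FMON`, `FFM`, `RFAM`, `MAXF`, `TRI`,
`CMP` as there. -/
def S_FSEQ : Prop := ∀ {n m : ℕ} (T : Set (Cn n)) {G : Type u} [Group G]
  (R : G → Cn n → Cn n → Prop) (H : Cn n → Matrix (Fin n) (Fin n) ℂ)
  (σ : Cn n → Matrix (Fin n) (Fin m) ℂ) (h : Cn n → Matrix (Fin m) (Fin m) ℂ)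
  (χ : Cn n → Matrix (Fin n) (Fin n) ℂ) (c : ℝ) (ψ : Cn n → ℝ), FDat T R H σ h χ c ψ →
  ∃ (s : ℝ) (S N : ℕ → ℝ) (φ : ℕ → Cn n → ℝ) (H' : ℕ → Cn n → Matrix (Fin n) (Fin n) ℂ)
    (ε : ℕ → ℝ) (Q : ℕ → Cn n → Matrix (Fin n) (Fin n) ℂ),
    SeqF T R H (gS σ h) χ s S N φ H' ε Q

/-- FVD. The function `v = S - ε tr (g Q⁻¹)`. Model `hvd` (`Helper57/HX/Hv.lean`); now `trL Q t = - t + ε tr (H' K g K) + ERR` (`FCL` with `η = ε (tw χ ε H') = ε H' + χ`). The invariance of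
`tr (χ K g K)`: as that of `tr (rho Q K g K)` in `scl`. -/
def S_FVD : Prop := ∀ {n m : ℕ} (T : Set (Cn n)) {G : Type u} [Group G]
  (R : G → Cn n → Cn n → Prop) (H' : Cn n → Matrix (Fin n) (Fin n) ℂ)
  (σ : Cn n → Matrix (Fin n) (Fin m) ℂ) (h : Cn n → Matrix (Fin m) (Fin m) ℂ)
  (χ : Cn n → Matrix (Fin n) (Fin n) ℂ), KEt T R H' → SF T R σ h → PF T R χ → TRS T σ h χ →
  ∀ κ, IsPUE T R κ → ∀ (S ε : ℝ) (Q : Cn n → Matrix (Fin n) (Fin n) ℂ), 0 < ε →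
  SupB T (gS σ h) H' S → TKE T R (tw χ ε H') ε Q →
  InvF T R (fun x => S - ε * tS σ h Q x) ∧ (∀ x ∈ T, 0 ≤ S - ε * tS σ h Q x) ∧
  (∀ x ∈ T, (trL Q (fun y => S - ε * tS σ h Q y) x).re ≤ S - ε * tS σ h Q x) ∧
  ContinuousOn (fun x => ε * ERR σ h χ Q x) T ∧
  (∀ x ∈ T, 0 ≤ ε * AAs σ h Q x ∧ 0 ≤ ε * (NKs σ h Q x +
    (Matrix.trace (χ x * (Q x)⁻¹ * gS σ h x * (Q x)⁻¹)).re)) ∧
  (∀ γ x y, R γ x y → ε * ERR σ h χ Q y = ε * ERR σ h χ Q x) ∧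
  avE T κ Q (fun x => ε * ERR σ h χ Q x) ≤ avE T κ Q (fun x => S - ε * tS σ h Q x)

/-- FVC. `E_j[v_j] → 0`. Model `hvc` (`Helper57/HX/Hv.lean`), with `TkeS T R H (ε j) (tw χ (ε j) (H' j)) (Q j)` (`FFM`, `epsH`) as in `tvc` (`Helper27/TRB/Vfun.lean`). -/
def S_FVC : Prop := ∀ {n m : ℕ}, 0 < n → ∀ (T : Set (Cn n)) {G : Type u} [Group G]
  (R : G → Cn n → Cn n → Prop) (H : Cn n → Matrix (Fin n) (Fin n) ℂ)
  (σ : Cn n → Matrix (Fin n) (Fin m) ℂ) (h : Cn n → Matrix (Fin m) (Fin m) ℂ)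
  (χ : Cn n → Matrix (Fin n) (Fin n) ℂ) (c : ℝ) (ψ : Cn n → ℝ), FDat T R H σ h χ c ψ →
  ∀ κ, IsPUE T R κ →
  ∀ (s : ℝ) (S N : ℕ → ℝ) (φ : ℕ → Cn n → ℝ) (H' : ℕ → Cn n → Matrix (Fin n) (Fin n) ℂ)
    (ε : ℕ → ℝ) (Q : ℕ → Cn n → Matrix (Fin n) (Fin n) ℂ),
    SeqF T R H (gS σ h) χ s S N φ H' ε Q →
  Tendsto (fun j => avE T κ (Q j) fun x => S j - ε j * tS σ h (Q j) x) atTop (𝓝 0)

/-- FCH. The average of `tr (χ Q⁻¹)` is at most `n`. COPY of `tch` (`Helper27/TRB/Vfun.lean`) with `μ := c ≥ 0`, `ψ := c ψ` (`chi'`; for `c = 0` it is `χ = 0`): `(1 + c) χ = c Q - c ε H' + LM w`. -/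
def S_FCH : Prop := ∀ {n m : ℕ} (T : Set (Cn n)) {G : Type u} [Group G]
  (R : G → Cn n → Cn n → Prop) (H : Cn n → Matrix (Fin n) (Fin n) ℂ)
  (σ : Cn n → Matrix (Fin n) (Fin m) ℂ) (h : Cn n → Matrix (Fin m) (Fin m) ℂ)
  (χ : Cn n → Matrix (Fin n) (Fin n) ℂ) (c : ℝ) (ψ : Cn n → ℝ), FDat T R H σ h χ c ψ →
  ∀ κ, IsPUE T R κ → ∀ (ε : ℝ) (H' Q : Cn n → Matrix (Fin n) (Fin n) ℂ), 0 < ε → KEt T R H' →
  TKE T R (tw χ ε H') ε Q →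
  InvF T R (fun x => (Matrix.trace (χ x * (Q x)⁻¹)).re) ∧
  (∀ x ∈ T, 0 ≤ (Matrix.trace (χ x * (Q x)⁻¹)).re) ∧
  avE T κ Q (fun x => (Matrix.trace (χ x * (Q x)⁻¹)).re) ≤ n

/-- FDB. The endomorphism `X = XS ε σ h Q`: smooth, `h`-selfadjoint, positive, trace, bounds on compact sets. COPY of `sdb` (`Helper57/HX/Sdb.lean`) with `SF` (only the binders change; the algebra
of that file can be imported). -/
def S_FDB : Prop := ∀ {n m : ℕ} (T : Set (Cn n)) {G : Type u} [Group G]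
  (R : G → Cn n → Cn n → Prop) (H : Cn n → Matrix (Fin n) (Fin n) ℂ)
  (σ : Cn n → Matrix (Fin n) (Fin m) ℂ) (h : Cn n → Matrix (Fin m) (Fin m) ℂ), KEt T R H →
  SF T R σ h →
  (∀ (ε : ℝ) (Q : Cn n → Matrix (Fin n) (Fin n) ℂ), 0 < ε → KEt T R Q →
    (∀ a c, ContDiffOn ℝ ∞ (fun x => XS ε σ h Q x a c) T) ∧
    ∀ x ∈ T, XS ε σ h Q x * h x = h x * (XS ε σ h Q x)ᴴ ∧
      (XS ε σ h Q x * h x).PosSemidef ∧
      Matrix.trace (XS ε σ h Q x) = ((ε * tS σ h Q x : ℝ) : ℂ)) ∧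
  ∀ C ⊆ T, IsCompact C → ∃ K : ℝ, 0 < K ∧ ∀ (ε : ℝ) (Q : Cn n → Matrix (Fin n) (Fin n) ℂ),
  0 < ε → KEt T R Q → ∀ x ∈ C, (∀ a c, ‖XS ε σ h Q x a c‖ ≤ K * (ε * tS σ h Q x)) ∧
  ∀ l a c, ‖cdb l (fun y => XS ε σ h Q y a c) x‖ ^ 2 ≤
    K * (Matrix.trace (Q x * (H x)⁻¹)).re * (ε * AAs σ h Q x) * (ε * tS σ h Q x)

/-- FLC. The weighted limit exists. Model `hlc` (`Helper57/HX/LimH.lean`) with `FSEQ`, `FVC`, `FVD`, `FDB`, `ERR` in the place of `AAs + NKs`, and `TkeS T R H (ε j) (tw χ (ε j) (H' j)) (Q j)`; the field `ch` from `FCH`: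
`avE (ε_j tr (χ K_j)) ≤ ε_j n → 0` and `RAC`, as in `tlc` (`Helper27/TRB/Lim.lean`). -/
def S_FLC : Prop := ∀ {n m : ℕ}, 0 < n → ∀ (T : Set (Cn n)) {G : Type u} [Group G]
  (R : G → Cn n → Cn n → Prop) (H : Cn n → Matrix (Fin n) (Fin n) ℂ)
  (σ : Cn n → Matrix (Fin n) (Fin m) ℂ) (h : Cn n → Matrix (Fin m) (Fin m) ℂ)
  (χ : Cn n → Matrix (Fin n) (Fin n) ℂ) (c : ℝ) (ψ : Cn n → ℝ), FDat T R H σ h χ c ψ →
  ∀ κ, IsPUE T R κ →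
  ∃ (s : ℝ) (S N : ℕ → ℝ) (φ : ℕ → Cn n → ℝ) (H' : ℕ → Cn n → Matrix (Fin n) (Fin n) ℂ)
    (ε : ℕ → ℝ) (Q : ℕ → Cn n → Matrix (Fin n) (Fin n) ℂ)
    (X : Cn n → Matrix (Fin m) (Fin m) ℂ), LimF T R κ H σ h χ X s S N φ H' ε Q

end Pool.Agent.Helper18.FM
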