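import Pool.Agent.Helper18.FM.FPV
import Pool.Agent.Helper18.FM.FOUT
import Pool.Agent.Helper2.FM.FCL
import Pool.Agent.Helper52.FM.FLG
import Pool.Agent.Helper34.FM.FEX
import Pool.Agent.Helper57.FM.FVD
import Pool.Agent.Helper66.FM.FVC
import Pool.Agent.Helper30.FM.FCH
import Pool.Agent.Helper61.FM.FDB
import Pool.Agent.Helper49.FM.FSP
import Pool.Agent.Helper90.FM.FTQ
import Pool.Agent.Helper76.FM.FBET
import Pool.Agent.Helper29.FM.FND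
import Pool.Agent.Helper45.FM.FLNK
import Pool.Agent.Helper45.TRB.Main

/-! # FM: assembly, first part -/

open Complex Metric Set Filter Topology MeasureTheory
open scoped ContDiff ComplexConjugate ComplexOrder Manifold Matrix

namespace Pool.Agent.Helper18.FM.Asm

open Pool.Agent.Helper95.Lin Pool.Agent.Helper16.Abund Pool.Agent.Helper92.Orb
  Pool.Agent.Helper10.SP Pool.Agent.Helper95.RK Pool.Agent.Helper57.HS
  Pool.Agent.Helper15.HS Pool.Agent.Helper10.HS Pool.Agent.Helper15.RK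
  Pool.Agent.Helper10.SP.Asm Pool.Agent.Helper15.HS.Asm Pool.Agent.Helper15.GS
  Pool.Agent.Helper15.GS.Asm Pool.Agent.Helper57.RBC Pool.Agent.Helper15.RBC
  Pool.Agent.Helper10.RBC Pool.Agent.Helper45.RBC Pool.Agent.Helper57.RBC.Asm
  Pool.Agent.Helper10.RK.Asm Pool.Agent.Helper45.RBC.Asm Pool.Agent.Helper57.HX
  Pool.Agent.Helper57.HX.Asm Pool.Agent.Helper82.HB Pool.Agent.Helper45.HB.Asm
  Pool.Agent.Helper45.TRB.Asm

universe u v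

theorem t_FCL : S_FCL.{u} := Pool.Agent.Helper2.FM.FCL.t t_CSY t_TRI t_KETP t_RHOI t_IFN
theorem t_FLG : S_FLG.{u} := Pool.Agent.Helper52.FM.FLG.t t_FCL t_CHN
theorem t_FFM : S_FFM.{u} := Pool.Agent.Helper34.FM.FEX.t_FFM t_WIRT t_RHOI
theorem t_FEX : S_FEX.{u} :=
  Pool.Agent.Helper34.FM.FEX.t_FEX t_AYG t_WIRT t_RHOI t_FCL t_FLG t_XBG (t_XEX t_AYG)
theorem t_FVD : S_FVD.{u} :=
  Pool.Agent.Helper57.FM.FVD.t t_WIRT t_DETI t_MAXF t_TRI t_KETP t_IFN t_FCL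
theorem t_FVC : S_FVC.{u} :=
  Pool.Agent.Helper66.FM.FVC.t t_FFM t_MAXF (t_RWT t_AYG) t_FVD t_RLG t_RVZ
theorem t_FCH : S_FCH.{u} :=
  Pool.Agent.Helper30.FM.FCH.t t_WIRT t_RHOI t_DETI t_TRI t_KETP t_NULL0
theorem t_FDB : S_FDB.{u} := Pool.Agent.Helper61.FM.FDB.t
theorem t_FSP : S_FSP.{u} := Pool.Agent.Helper49.FM.FSP.t t_ARRB t_FCL t_FDB
theorem t_FTQ : S_FTQ := Pool.Agent.Helper90.FM.FTQ.t
theorem t_FBET : S_FBET.{u} := Pool.Agent.Helper76.FM.FBET.t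
theorem t_FND_of (hFAV : S_FAV.{u}) : S_FND.{u} :=
  Pool.Agent.Helper29.FM.FND.t (t_RWT t_AYG) t_FBET t_FLG hFAV
theorem t_FLK : S_FLK.{u, v} :=
  Pool.Agent.Helper45.FM.flk t_PARH t_KETH t_DETI t_LMF t_WIRT t_RHOI t_RHB
theorem t_FUN : S_FUN.{u, v} := Pool.Agent.Helper45.FM.fun' t_PARH
theorem t_FPV_of (hFLC : S_FLC.{u}) (hFCR : S_FCR.{u}) (hFTR : S_FTR.{u}) (hFTB : S_FTB.{u})
    (hFCO : S_FCO.{u}) (hFNU : S_FNU) : S_FPV.{u} :=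
  fpv hFLC t_FSP hFCR hFTR hFTB hFCO hFNU t_FTQ t_FBET t_FFM t_HCLO
theorem t_FOUT_of (hFPV : S_FPV.{u}) (hFNK : S_FNK.{u}) (hFVP : S_FVP.{u})
    (hFB3 : S_FB3.{u}) : S_FOUT.{u} :=
  fout t_PUE (t_VOLP t_MOMG) t_FEX hFPV hFNK hFVP hFB3 t_KAPI t_RHOI
theorem t_MAINF_of (hFOUT : S_FOUT.{u}) : S_MAINF.{u, v} := mainf t_FUN t_FLK hFOUT t_MAINP

end Pool.Agent.Helper18.FM.Asm
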