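import Pool.Agent.Helper27.TRB.Goals2
import Pool.Agent.Helper57.HX.GoalsL
import Pool.Agent.Helper45.HB.GoalsM

/-!
# FM: maps to Hermitian manifolds with bounded real bisectional curvature along the map

`M` has an invariant Kähler metric and an invariant volume form `v` with curvature form `θ` of the canonical
bundle, `c ≥ 0`, `c θ ≥ 0`; the semidefinite form `g` is locally the pull-back `F^* h` of a Hermitian metric `h` on an
open set of `ℂᵐ` by a holomorphic map `F`, `θ + g > 0`, and the real bisectional curvature of `h` along `F` is at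
most `c θ`. On the étale relation: `σ = ∂F` (`n × m`), `h := h ∘ F` is a metric of the trivial bundle of rank `m`, `g = σ h σᴴ`. The map enters
only through the connection matrices `Γ_a ∘ F` and their derivatives `C_ab = (cdb b Γ_a) ∘ F` (structure `CF`). Conventions of
`Helper82/HB/Defs.lean`, `Helper57/HS/Defs.lean` (`cd k = 2 ∂_k`, matrices act on rows).
-/

open Complex Metric Set Filter Topology MeasureTheory
open scoped ContDiff ComplexConjugate ComplexOrder Manifold Matrix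

namespace Pool.Agent.Helper18.FM

open Pool.Agent.Helper95.Lin Pool.Agent.Helper16.Abund Pool.Agent.Helper92.Orb
  Pool.Agent.Helper10.SP Pool.Agent.Helper95.RK Pool.Agent.Helper57.HS
  Pool.Agent.Helper15.HS Pool.Agent.Helper15.GS Pool.Agent.Helper57.RBC Pool.Agent.Helper82.HB
open Pool.Agent.Helper10.RBC (dn)
open Pool.Agent.Helper29.HB (WL)
open Pool.Agent.Helper27.TRB (tw)

universe u v

variable {n m : ℕ}

/-! ## The form `σ h σᴴ` -/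

/-- `SD` of `Helper82/HB/Defs.lean` without the curvature condition. -/
structure SF (T : Set (Cn n)) {G : Type u} (R : G → Cn n → Cn n → Prop)
    (σ : Cn n → Matrix (Fin n) (Fin m) ℂ) (h : Cn n → Matrix (Fin m) (Fin m) ℂ) : Prop where
  holo : ∀ i a, DifferentiableOn ℂ (fun x => σ x i a) T
  posDef : ∀ x ∈ T, (h x).PosDef
  smooth : ∀ a b, ContDiffOn ℝ ∞ (fun x => h x a b) T
  inv : InvH R (gS σ h)

/-- The curvature term for a positive semidefinite matrix `K`; `NKs σ h Q x = NKK σ h (Q x)⁻¹ x` (`rfl`). -/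
noncomputable def NKK (σ : Cn n → Matrix (Fin n) (Fin m) ℂ)
    (h : Cn n → Matrix (Fin m) (Fin m) ℂ) (K : Matrix (Fin n) (Fin n) ℂ) (x : Cn n) : ℝ :=
  (∑ k, ∑ l, K l k * Matrix.trace (σ x * (RE h k l x * h x) * (σ x)ᴴ * K)).re

/-- The real bisectional curvature along `σ` is at most `χ`. -/
def TRS (T : Set (Cn n)) (σ : Cn n → Matrix (Fin n) (Fin m) ℂ)
    (h : Cn n → Matrix (Fin m) (Fin m) ℂ) (χ : Cn n → Matrix (Fin n) (Fin n) ℂ) : Prop :=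
  ∀ x ∈ T, ∀ K : Matrix (Fin n) (Fin n) ℂ, K.PosSemidef →
    0 ≤ NKK σ h K x + (Matrix.trace (χ x * K * gS σ h x * K)).re

/-- `χ` is a semipositive form (continuous; no closedness). -/
structure PF (T : Set (Cn n)) {G : Type u} (R : G → Cn n → Cn n → Prop)
    (χ : Cn n → Matrix (Fin n) (Fin n) ℂ) : Prop where
  psd : ∀ x ∈ T, (χ x).PosSemidef
  smooth : ∀ i j, ContDiffOn ℝ ∞ (fun x => χ x i j) T
  inv : InvH R χ

/-! ## The data -/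

/-- The data on the étale relation: `χ = c (rho H + LM ψ)` (written in two ways) and `rho H + LM ψ + g > 0`. -/
structure FDat (T : Set (Cn n)) {G : Type u} [Group G] (R : G → Cn n → Cn n → Prop)
    (H : Cn n → Matrix (Fin n) (Fin n) ℂ) (σ : Cn n → Matrix (Fin n) (Fin m) ℂ)
    (h : Cn n → Matrix (Fin m) (Fin m) ℂ) (χ : Cn n → Matrix (Fin n) (Fin n) ℂ) (c : ℝ)
    (ψ : Cn n → ℝ) : Prop where
  ket : KEt T R H
  sf : SF T R σ h
  c0 : 0 ≤ c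
  psi : InvF T R ψ
  chi : ∀ x ∈ T, χ x = (c : ℂ) • (rho H x + LM ψ x)
  chi' : ∀ x ∈ T, χ x = (c : ℂ) • rho H x + LM (fun y => c * ψ y) x
  pf : PF T R χ
  le : ∀ x ∈ T, (H x - (2 : ℂ) • χ x).PosSemidef
  pos : ∀ x ∈ T, (rho H x + LM ψ x + gS σ h x).PosDef
  trb : TRS T σ h χ

/-- The connection of `h` is `∑ a, σ k a • Γ_a`, its curvature `∑ a b, σ k a conj(σ l b) • C_ab`. For a map `F` and a
metric `hN`: `Γ a x = Gam hN a (F x)`, `C a b x = cdbM b (Gam hN a) (F x)`. -/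
structure CF (T : Set (Cn n)) (σ : Cn n → Matrix (Fin n) (Fin m) ℂ)
    (h : Cn n → Matrix (Fin m) (Fin m) ℂ) (Γ : Fin m → Cn n → Matrix (Fin m) (Fin m) ℂ)
    (C : Fin m → Fin m → Cn n → Matrix (Fin m) (Fin m) ℂ) : Prop where
  smG : ∀ a p q, ContDiffOn ℝ ∞ (fun x => Γ a x p q) T
  cC : ∀ a b p q, ContinuousOn (fun x => C a b x p q) T
  gam : ∀ x ∈ T, ∀ k, GamE h k x = ∑ a, σ x k a • Γ a x
  cur : ∀ x ∈ T, ∀ k l, RE h k l x = ∑ a, ∑ b, (σ x k a * conj (σ x l b)) • C a b x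
  dbG : ∀ x ∈ T, ∀ a l, cdbM l (Γ a) x = ∑ b, conj (σ x l b) • C a b x
  her : ∀ x ∈ T, ∀ a b, (C a b x * h x)ᴴ = C b a x * h x
  sym : ∀ x ∈ T, ∀ k i a, cdR k σ x i a = cdR i σ x k a

/-- `- ∑ R(y_i, y_i, y_j, y_j)` for `Y = ∑ y_iᴴ y_i`; `NKK σ h K x = CRV h C (σᴴ K σ) x`. -/
noncomputable def CRV (h : Cn n → Matrix (Fin m) (Fin m) ℂ)
    (C : Fin m → Fin m → Cn n → Matrix (Fin m) (Fin m) ℂ) (Y : Matrix (Fin m) (Fin m) ℂ)
    (x : Cn n) : ℝ :=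
  (∑ a, ∑ b, Y b a * Matrix.trace (C a b x * h x * Y)).re

/-- The curvature tensor at `x`: `i`, `j` the indices of the bundle, `k`, `l` those of the form (as `crv`). -/
noncomputable def RC (h : Cn n → Matrix (Fin m) (Fin m) ℂ)
    (C : Fin m → Fin m → Cn n → Matrix (Fin m) (Fin m) ℂ) (x : Cn n) (i j k l : Fin m) : ℂ :=
  - (C k l x * h x) i j

/-! ## The sequences and the limit -/

/-- The minimising sequences (as `SeqT`; `g` may degenerate). -/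
structure SeqF (T : Set (Cn n)) {G : Type u} [Group G] (R : G → Cn n → Cn n → Prop)
    (H g χ : Cn n → Matrix (Fin n) (Fin n) ℂ) (s : ℝ) (S N : ℕ → ℝ) (φ : ℕ → Cn n → ℝ)
    (H' : ℕ → Cn n → Matrix (Fin n) (Fin n) ℂ) (ε : ℕ → ℝ)
    (Q : ℕ → Cn n → Matrix (Fin n) (Fin n) ℂ) : Prop where
  nn : 0 ≤ s
  S_ge : ∀ j, s ≤ S j
  S_le : ∀ j, S j ≤ s + 1 / ((j : ℝ) + 1)
  fam : ∀ j, Fam T R H (N j) (φ j) (H' j)
  sup : ∀ j, SupB T g (H' j) (S j)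
  eps : ∀ j, 0 < ε j
  eps_le : ∀ j, ε j ≤ 1 / ((j : ℝ) + 1)
  epsN : ∀ j, ε j * N j ≤ 1 / ((j : ℝ) + 1)
  epsH : ∀ j, ∀ x ∈ T, (H x - (ε j : ℂ) • H' j x - χ x).PosSemidef
  tke : ∀ j, TKE T R (tw χ (ε j) (H' j)) (ε j) (Q j)
  m_le : ∀ j, ∀ x ∈ T, ε j * (Matrix.trace (g x * (Q j x)⁻¹)).re ≤ S j
  m_ge : ∀ j, ∃ x ∈ T, s ≤ ε j * (Matrix.trace (g x * (Q j x)⁻¹)).re

/-- The total error `AAs + NKs + tr (χ K g K)` (invariant; `AAs ≥ 0` and `NKs + tr (χ K g K) ≥ 0`). -/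
noncomputable def ERR (σ : Cn n → Matrix (Fin n) (Fin m) ℂ)
    (h : Cn n → Matrix (Fin m) (Fin m) ℂ) (χ Q : Cn n → Matrix (Fin n) (Fin n) ℂ) (x : Cn n) : ℝ :=
  AAs σ h Q x + (NKs σ h Q x + (Matrix.trace (χ x * (Q x)⁻¹ * gS σ h x * (Q x)⁻¹)).re)

/-- The weighted limit `X` of `X_j = ε_j h σᴴ Q_j⁻¹ σ` (as `LimE`, `LimTC`). -/
structure LimF (T : Set (Cn n)) {G : Type u} [Group G] (R : G → Cn n → Cn n → Prop)
    (κ : Cn n → ℝ) (H : Cn n → Matrix (Fin n) (Fin n) ℂ) (σ : Cn n → Matrix (Fin n) (Fin m) ℂ)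
    (h : Cn n → Matrix (Fin m) (Fin m) ℂ) (χ : Cn n → Matrix (Fin n) (Fin n) ℂ)
    (X : Cn n → Matrix (Fin m) (Fin m) ℂ) (s : ℝ) (S N : ℕ → ℝ) (φ : ℕ → Cn n → ℝ)
    (H' : ℕ → Cn n → Matrix (Fin n) (Fin n) ℂ) (ε : ℕ → ℝ)
    (Q : ℕ → Cn n → Matrix (Fin n) (Fin n) ℂ) : Prop where
  seq : SeqF T R H (gS σ h) χ s S N φ H' ε Q
  wl : WL T (fun j => dn T κ H (Q j)) (fun j => XS (ε j) σ h (Q j)) X
  holo : ∀ a b, DifferentiableOn ℂ (fun x => X x a b) T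
  winv : ∀ j γ x y, R γ x y → dn T κ H (Q j) y = dn T κ H (Q j) x
  wb : ∃ K : ℝ, 0 < K ∧ ∀ j, ∀ x ∈ T, 0 < dn T κ H (Q j) x ∧ dn T κ H (Q j) x ≤ K
  gB : ∀ C ⊆ T, IsCompact C → ∃ B : ℝ, ∀ j, ∫ x in C, (Matrix.trace (Q j x * (H x)⁻¹)).re ≤ B
  v : ∀ C ⊆ T, IsCompact C → Tendsto (fun j => ∫ x in C, dn T κ H (Q j) x *
    (S j - ε j * tS σ h (Q j) x)) atTop (𝓝 0)
  err : ∀ C ⊆ T, IsCompact C → Tendsto (fun j => ∫ x in C, dn T κ H (Q j) x *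
    (ε j * ERR σ h χ (Q j) x)) atTop (𝓝 0)
  ch : ∀ C ⊆ T, IsCompact C → Tendsto (fun j => ∫ x in C, dn T κ H (Q j) x *
    (ε j * (Matrix.trace (χ x * (Q j x)⁻¹)).re)) atTop (𝓝 0)

/-- The projector `P = p(X)` on the image of `X`: everything which is needed for the volume and the output. -/
structure ParF (r : ℕ) (T : Set (Cn n)) {G : Type u} [Group G] (R : G → Cn n → Cn n → Prop)
    (H : Cn n → Matrix (Fin n) (Fin n) ℂ) (σ : Cn n → Matrix (Fin n) (Fin m) ℂ)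
    (h : Cn n → Matrix (Fin m) (Fin m) ℂ) (χ : Cn n → Matrix (Fin n) (Fin n) ℂ)
    (P : Cn n → Matrix (Fin m) (Fin m) ℂ) : Prop where
  par : ParS r T R σ h P
  sdP : SD T R (fun x => σ x * P x) h
  sfQ : SF T R (fun x => σ x * (1 - P x)) h
  trQ : TRS T (fun x => σ x * (1 - P x)) h χ

/-- The sequences `H'_j` (now with the twist, `N_j` large), for the averages and the volume (as `LimAT`, `LimS`). -/
structure LimV (r : ℕ) (T : Set (Cn n)) {G : Type u} [Group G] (R : G → Cn n → Cn n → Prop)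
    (κ : Cn n → ℝ) (H : Cn n → Matrix (Fin n) (Fin n) ℂ) (σ : Cn n → Matrix (Fin n) (Fin m) ℂ)
    (h : Cn n → Matrix (Fin m) (Fin m) ℂ) (χ : Cn n → Matrix (Fin n) (Fin n) ℂ) (c : ℝ)
    (X P : Cn n → Matrix (Fin m) (Fin m) ℂ) (s : ℝ) (N : ℕ → ℝ) (φ : ℕ → Cn n → ℝ)
    (H' : ℕ → Cn n → Matrix (Fin n) (Fin n) ℂ) (ε : ℕ → ℝ)
    (Q : ℕ → Cn n → Matrix (Fin n) (Fin n) ℂ) : Prop where
  par : ParF r T R H σ h χ P
  cX : ∀ a b, ContinuousOn (fun x => X x a b) T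
  XP : ∀ x ∈ T, X x * P x = X x ∧ P x * X x = X x
  pos : ∀ x ∈ T, (X x * h x).PosSemidef
  tr : ∀ x ∈ T, Matrix.trace (X x) = (s : ℂ)
  nd : ∃ α : ℝ, 0 < α ∧ ∀ x ∈ T, α ≤ (X x + (1 - P x)).det.re
  bX : ∀ C ⊆ T, IsCompact C → ∃ B : ℝ, ∀ j, ∀ x ∈ C, ∀ a c, ‖XS (ε j) σ h (Q j) x a c‖ ≤ B
  conv : ∀ C ⊆ T, IsCompact C → ∀ a c, Tendsto (fun j => ∫ x in C, dn T κ H (Q j) x *
    ‖XS (ε j) σ h (Q j) x a c - X x a c‖) atTop (𝓝 0)
  eps : ∀ j, 0 < ε j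
  lim : Tendsto ε atTop (𝓝 0)
  limN : Tendsto (fun j => ε j * N j) atTop (𝓝 c)
  fam : ∀ j, Fam T R H (N j) (φ j) (H' j)
  tke : ∀ j, TKE T R (H' j) (ε j) (Q j)
  tks : ∀ j, TkeS T R H (ε j) (H' j) (Q j)
  geχ : ∀ j, ∀ x ∈ T, ((ε j : ℂ) • H' j x - χ x).PosSemidef

end Pool.Agent.Helper18.FM
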