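import Pool.Agent.Helper18.FM.GoalsC
import Pool.Agent.Helper27.TRB.Seq
import Pool.Agent.Helper29.HL.HLIM

/-!
# FM: the projector and the sequences for the volume (FPV)
-/

open Complex Metric Set Filter Topology MeasureTheory
open scoped ContDiff ComplexConjugate ComplexOrder Manifold Matrix

namespace Pool.Agent.Helper18.FM

open Pool.Agent.Helper95.Lin Pool.Agent.Helper16.Abund Pool.Agent.Helper92.Orb
  Pool.Agent.Helper10.SP Pool.Agent.Helper95.RK Pool.Agent.Helper57.HS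
  Pool.Agent.Helper15.HS Pool.Agent.Helper15.GS Pool.Agent.Helper57.RBC Pool.Agent.Helper82.HB
open Pool.Agent.Helper10.RBC (dn)
open Pool.Agent.Helper29.HB (WL)
open Pool.Agent.Helper27.TRB (tw invH_congr chf_congr)
open Pool.Agent.Helper25.HS (TT)
open Pool.Agent.Helper29.HL (hermi_sumL hermi_smulL)
open Pool.Agent.Helper15.HB (S_HCLO)

universe u v

variable {n m : ℕ}

/-- `CRV` is minus the sum with the curvature tensor. -/
theorem crv_sum (h : Cn n → Matrix (Fin m) (Fin m) ℂ)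
    (C : Fin m → Fin m → Cn n → Matrix (Fin m) (Fin m) ℂ) (Y : Matrix (Fin m) (Fin m) ℂ)
    (x : Cn n) : CRV h C Y x =
      - (∑ i, ∑ j, ∑ k, ∑ l, Y j i * Y l k * RC h C x i j k l).re := by
  unfold CRV
  rw [← Complex.neg_re]
  congr 1
  have e1 : ∀ k l, Matrix.trace (C k l x * h x * Y) = ∑ i, ∑ j, (C k l x * h x) i j * Y j i := by
    intro k l
    simp only [Matrix.trace, Matrix.diag_apply]
    refine Finset.sum_congr rfl fun i _ => ?_
    rw [Matrix.mul_apply]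
  have e2 : ∑ i, ∑ j, ∑ k, ∑ l, Y j i * Y l k * RC h C x i j k l =
      ∑ k, ∑ l, ∑ i, ∑ j, Y j i * Y l k * RC h C x i j k l := by
    calc ∑ i, ∑ j, ∑ k, ∑ l, Y j i * Y l k * RC h C x i j k l
        = ∑ i, ∑ k, ∑ j, ∑ l, Y j i * Y l k * RC h C x i j k l :=
          Finset.sum_congr rfl fun i _ => Finset.sum_comm
      _ = ∑ k, ∑ i, ∑ j, ∑ l, Y j i * Y l k * RC h C x i j k l := Finset.sum_comm
      _ = ∑ k, ∑ i, ∑ l, ∑ j, Y j i * Y l k * RC h C x i j k l :=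
          Finset.sum_congr rfl fun k _ => Finset.sum_congr rfl fun i _ => Finset.sum_comm
      _ = ∑ k, ∑ l, ∑ i, ∑ j, Y j i * Y l k * RC h C x i j k l :=
          Finset.sum_congr rfl fun k _ => Finset.sum_comm
  rw [e2, ← Finset.sum_neg_distrib]
  refine Finset.sum_congr rfl fun k _ => ?_
  rw [← Finset.sum_neg_distrib]
  refine Finset.sum_congr rfl fun l _ => ?_
  rw [e1, Finset.mul_sum, ← Finset.sum_neg_distrib]
  refine Finset.sum_congr rfl fun i _ => ?_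
  rw [Finset.mul_sum, ← Finset.sum_neg_distrib]
  refine Finset.sum_congr rfl fun j _ => ?_
  unfold RC
  ring

theorem rc_conj {T : Set (Cn n)} {σ : Cn n → Matrix (Fin n) (Fin m) ℂ}
    {h : Cn n → Matrix (Fin m) (Fin m) ℂ} {Γ : Fin m → Cn n → Matrix (Fin m) (Fin m) ℂ}
    {C : Fin m → Fin m → Cn n → Matrix (Fin m) (Fin m) ℂ} (hC : CF T σ h Γ C) {x : Cn n}
    (hx : x ∈ T) (i j k l : Fin m) : conj (RC h C x i j k l) = RC h C x j i l k := by
  unfold RC
  rw [map_neg, ← hC.her x hx k l, Matrix.conjTranspose_apply]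
  rfl

theorem mem_Sx (σ : Cn n → Matrix (Fin n) (Fin m) ℂ) (P : Cn n → Matrix (Fin m) (Fin m) ℂ)
    (x : Cn n) (a : Fin m → ℂ) : a ᵥ* P x ∈ Sx σ P x := by
  rw [Matrix.vecMul_eq_sum]
  refine Submodule.sum_mem _ fun i _ => Submodule.smul_mem _ _ ?_
  exact Submodule.subset_span (Or.inr ⟨i, rfl⟩)

theorem gS_pow {T : Set (Cn n)} {σ : Cn n → Matrix (Fin n) (Fin m) ℂ}
    {h X P : Cn n → Matrix (Fin m) (Fin m) ℂ} {p : Polynomial ℝ}
    (hPp : ∀ x, P x = Polynomial.aeval (X x) p) (hPP : ∀ x ∈ T, P x * P x = P x)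
    (hPh : ∀ x ∈ T, P x * h x = h x * (P x)ᴴ) : ∀ x ∈ T, gS (fun y => σ y * P y) h x =
      ∑ i ∈ Finset.range (p.natDegree + 1), ((p.coeff i : ℝ) : ℂ) •
        (σ x * (X x ^ i * h x) * (σ x)ᴴ) := by
  intro x hx
  have e1 : gS (fun y => σ y * P y) h x = σ x * (P x * h x) * (σ x)ᴴ := by
    unfold gS
    rw [Matrix.conjTranspose_mul]
    calc σ x * P x * h x * ((P x)ᴴ * (σ x)ᴴ) = σ x * (P x * (h x * (P x)ᴴ)) * (σ x)ᴴ := by
          simp only [Matrix.mul_assoc]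
      _ = σ x * (P x * P x * h x) * (σ x)ᴴ := by rw [← hPh x hx, ← Matrix.mul_assoc (P x)]
      _ = _ := by rw [hPP x hx]
  rw [e1, hPp x, Polynomial.aeval_eq_sum_range, Matrix.sum_mul, Matrix.mul_sum, Matrix.sum_mul]
  refine Finset.sum_congr rfl fun i _ => ?_
  rw [← Complex.coe_smul, Matrix.smul_mul, Matrix.mul_smul, Matrix.smul_mul]

/-- FPV. -/
theorem fpv (hFLC : S_FLC.{u}) (hFSP : S_FSP.{u}) (hFCR : S_FCR.{u}) (hFTR : S_FTR.{u})
    (hFTB : S_FTB.{u}) (hFCO : S_FCO.{u}) (hFNU : S_FNU) (hFTQ : S_FTQ) (hFBET : S_FBET.{u})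
    (hFFM : S_FFM.{u}) (hHCLO : S_HCLO.{u}) : S_FPV.{u} := by
  intro n m hn T G _ R H σ h χ c ψ D Γ C hC κ hκ
  have hT := D.ket.et.isOpen
  obtain ⟨s, S, N, φ, H', ε, Q, X, hL⟩ := hFLC hn T R H σ h χ c ψ D κ hκ
  obtain ⟨h1, h2, h3⟩ := hFSP T R H σ h χ c ψ D κ X s S N φ H' ε Q hL
  have hcr := hFCR T R H σ h χ c ψ D Γ C hC κ X s S N φ H' ε Q hL
  have htr := hFTR T R H σ h χ c ψ D Γ C hC κ X s S N φ H' ε Q hL
  obtain ⟨hb1, hb2⟩ := hFTB T R H σ h χ c ψ D Γ C hC κ X s S N φ H' ε Q hL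
  obtain ⟨r, P, p, hr, hp0, hPp, hPd, hPP, hPh, hPt, hPX, ⟨α, hα, hαd⟩, ⟨c', hc', hcp⟩⟩ :=
    Pool.Agent.Helper29.HL.hch D.ket.et D.sf.posDef hL.holo (fun x hx => (h1 x hx).2.1) h2
  have hco := hFCO T R H σ h χ c ψ D Γ C hC κ X s S N φ H' ε Q hL htr P p hp0 hPp hPd hPP hPh
  have hnul : ∀ x ∈ T, ∀ u ∈ Sx σ P x, ∀ w ∈ Sx σ P x, ∀ a b : Fin m → ℂ,
      TT (RC h C x) (a ᵥ* P x) b u w = 0 := by
    intro x hx
    refine hFNU (RC h C x) (h x) (P x) (X x) (Sx σ P x) c' (rc_conj hC hx)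
      (D.sf.posDef x hx) (hPP x hx) (hPh x hx) (hPX x hx).2 hc' (hcp x hx)
      (mem_Sx σ P x) (fun u hu w hw a b => hco x hx u hu w hw a b) ?_ ?_
    · intro w hw
      obtain ⟨q, hq⟩ : ∃ q : Polynomial ℝ, p = Polynomial.X * q := Polynomial.X_dvd_iff.2
        (show p.coeff 0 = 0 by rw [Polynomial.coeff_zero_eq_eval_zero, hp0])
      have e1 : P x = Polynomial.aeval (X x) q * X x := by
        rw [hPp x, hq, mul_comm Polynomial.X q, map_mul, Polynomial.aeval_X]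
      have e2 : w = (w ᵥ* Polynomial.aeval (X x) q) ᵥ* X x := by
        rw [Matrix.vecMul_vecMul, ← e1, hw]
      rw [e2]
      exact hb2 x hx _
    · have h4 := hcr x hx
      rw [crv_sum] at h4
      linarith
  obtain ⟨hflat, htq⟩ := hFTQ T σ h χ Γ C P D.sf.posDef hC hPP hPh
    (fun x hx u hu w hw a b => ⟨(hco x hx u hu w hw a b).1, (hco x hx u hu w hw a b).2,
      hnul x hx u hu w hw a b⟩)
    (fun x hx K hK => by
      have h4 := hb1 p hp0 x hx K hK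
      rwa [← hPp x] at h4)
  have hgS := gS_pow (σ := σ) hPp hPP hPh
  have hinv : InvH R (gS (fun x => σ x * P x) h) := by
    intro U τ hArr x hx u v
    obtain ⟨γ, hγ⟩ := hArr.2.2
    obtain ⟨hxT, hyT⟩ := D.ket.et.mem γ x (τ x) (hγ x hx)
    rw [hgS x hxT, hgS (τ x) hyT, hermi_sumL, hermi_sumL]
    refine Finset.sum_congr rfl fun i _ => ?_
    rw [hermi_smulL, hermi_smulL]
    congr 1
    exact h3 i U τ hArr x hx u v
  have hholo : ∀ i a, DifferentiableOn ℂ (fun x => (σ x * P x) i a) T := by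
    intro i a
    have e1 : (fun x => (σ x * P x) i a) = fun x => ∑ b, σ x i b * P x b a := by
      funext x
      rw [Matrix.mul_apply]
    rw [e1]
    exact DifferentiableOn.fun_sum fun b _ => (D.sf.holo i b).mul (hPd b a)
  have hsd : SD T R (fun x => σ x * P x) h := by
    refine ⟨hholo, D.sf.posDef, D.sf.smooth, hinv, ?_⟩
    intro x hx u w
    have hz : ∀ k l, P x * (RE h k l x * h x) = 0 := fun k l => by
      rw [← Matrix.mul_assoc, hflat x hx k l, Matrix.zero_mul]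
    have hz' : ∀ k l, σ x * P x * (RE h k l x * h x) = 0 := fun k l => by
      rw [Matrix.mul_assoc, hz, Matrix.mul_zero]
    simp only [hz', Matrix.zero_mul]
    simp [hermi]
  have hPPc : ∀ x ∈ T, gS (fun y => σ y * P y * P y) h x = gS (fun y => σ y * P y) h x := by
    intro x hx
    have e1 : σ x * P x * P x = σ x * P x := by rw [Matrix.mul_assoc, hPP x hx]
    unfold gS
    simp only [e1]
  have hchf : CHF (gS (fun x => σ x * P x) h) T := by
    refine chf_congr hT hPPc ?_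
    exact hHCLO T R H D.ket (fun x => σ x * P x) h hsd P hPd hPh
      (invH_congr D.ket.et (fun x hx => (hPPc x hx).symm) hinv) hflat
  have hpar : ParS r T R σ h P := ⟨hPd, hPP, hPt, hPh, hflat, hinv, hchf⟩
  obtain ⟨hsdP, hsfQ, -⟩ := hFBET T R D.ket.et σ h P r D.sf hpar
  obtain ⟨-, hket, hfam⟩ := hFFM T R H σ h χ c ψ D
  have hepsnn : ∀ j, 0 ≤ ε j := fun j => (hL.seq.eps j).le
  have hone : Tendsto (fun j : ℕ => 1 / ((j : ℝ) + 1)) atTop (𝓝 0) :=
    tendsto_one_div_add_atTop_nhds_zero_nat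
  refine ⟨r, X, P, s, fun j => N j + (ε j)⁻¹ * c, fun j x => φ j x + (ε j)⁻¹ * (c * ψ x),
    fun j => tw χ (ε j) (H' j), ε, Q, ⟨hpar, hsdP, hsfQ, htq⟩,
    fun a b => (hL.holo a b).continuousOn, fun x hx => ⟨(hPX x hx).2, (hPX x hx).1⟩,
    fun x hx => (h1 x hx).2.1, fun x hx => (h1 x hx).2.2, ⟨α, hα, hαd⟩, hL.wl.Zb, hL.wl.conv,
    hL.seq.eps, ?_, ?_, fun j => hfam (N j) (φ j) (H' j) (hL.seq.fam j) (ε j) (hL.seq.eps j),
    hL.seq.tke, fun j => ?_, fun j x hx => ?_⟩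
  · exact squeeze_zero hepsnn hL.seq.eps_le hone
  · have h4 : Tendsto (fun j => ε j * N j) atTop (𝓝 0) :=
      squeeze_zero (fun j => mul_nonneg (hepsnn j) (hL.seq.fam j).nn) hL.seq.epsN hone
    have h5 := h4.add_const c
    rw [zero_add] at h5
    refine h5.congr fun j => ?_
    have h6 := (hL.seq.eps j).ne'
    field_simp
  · have h4 := hket (H' j) (ε j) (hL.seq.fam j).ket (hL.seq.eps j)
    refine ⟨h4.1, hL.seq.eps j, hL.seq.tke j, fun x hx => ?_⟩
    rw [h4.2 x]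
    have h5 := hL.seq.epsH j x hx
    rwa [sub_sub] at h5
  · have h4 := hket (H' j) (ε j) (hL.seq.fam j).ket (hL.seq.eps j)
    rw [h4.2 x, add_sub_cancel_right]
    exact (((hL.seq.fam j).ket.posDef x hx).posSemidef).smul
      (Complex.zero_le_real.2 (hepsnn j))

end Pool.Agent.Helper18.FM
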