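import Pool.Agent.Helper18.FM.GoalsA
import Pool.Agent.Helper25.HS.NULB

/-!
# FM, goals B: pointwise properties of the limit, the nullity algebra, the projector

`K_j = Q_j⁻¹`, `X_j = XS (ε_j) σ h Q_j = w_j σ` with `w_j = ε_j h σᴴ K_j` (`m × n`). WCC is `wcc` (`Helper57/HX/Wcc.lean`), WIN is `win`
(`Helper29/HL/WL.lean`): closed conditions and invariance pass to the weighted limit (`LimF.wl`). `tend` is `Pool.Agent.Helper94.GS.tend` (Cauchy–Schwarz for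
weighted integrals over compact sets).
-/

open Complex Metric Set Filter Topology MeasureTheory
open scoped ContDiff ComplexConjugate ComplexOrder Manifold Matrix

namespace Pool.Agent.Helper18.FM

open Pool.Agent.Helper95.Lin Pool.Agent.Helper16.Abund Pool.Agent.Helper92.Orb
  Pool.Agent.Helper10.SP Pool.Agent.Helper95.RK Pool.Agent.Helper57.HS
  Pool.Agent.Helper15.HS Pool.Agent.Helper15.GS Pool.Agent.Helper57.RBC Pool.Agent.Helper82.HB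
open Pool.Agent.Helper10.RBC (dn)
open Pool.Agent.Helper29.HB (WL)
open Pool.Agent.Helper27.TRB (tw)
open Pool.Agent.Helper25.HS (TT)

universe u v

/-- FSP. COPY of the first three parts of `hsp` (`Helper29/HL/HSP.lean`; `inv_det`, `inv_form_pow` of `XIN.lean`), with `SF`, `LimF`. -/
def S_FSP : Prop := ∀ {n m : ℕ} (T : Set (Cn n)) {G : Type u} [Group G]
  (R : G → Cn n → Cn n → Prop) (H : Cn n → Matrix (Fin n) (Fin n) ℂ)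
  (σ : Cn n → Matrix (Fin n) (Fin m) ℂ) (h : Cn n → Matrix (Fin m) (Fin m) ℂ)
  (χ : Cn n → Matrix (Fin n) (Fin n) ℂ) (c : ℝ) (ψ : Cn n → ℝ), FDat T R H σ h χ c ψ →
  ∀ (κ : Cn n → ℝ) (X : Cn n → Matrix (Fin m) (Fin m) ℂ) (s : ℝ) (S N : ℕ → ℝ)
    (φ : ℕ → Cn n → ℝ) (H' : ℕ → Cn n → Matrix (Fin n) (Fin n) ℂ) (ε : ℕ → ℝ)
    (Q : ℕ → Cn n → Matrix (Fin n) (Fin n) ℂ), LimF T R κ H σ h χ X s S N φ H' ε Q →
  (∀ x ∈ T, X x * h x = h x * (X x)ᴴ ∧ (X x * h x).PosSemidef ∧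
    Matrix.trace (X x) = (s : ℂ)) ∧
  (∀ t : ℝ, ∀ γ x y, R γ x y → (1 + (t : ℂ) • X y).det = (1 + (t : ℂ) • X x).det) ∧
  ∀ p : ℕ, InvH R fun x => σ x * (X x ^ p * h x) * (σ x)ᴴ

/-- FCR. The curvature equality. PROOF (see `hcrv` in `Helper20/TRB/TLP.lean`). `NKs σ h Q x = CRV h C (σᴴ K σ) x` (`CF.cur`) and `h⁻¹ X_j = ε_j σᴴ K_j σ`, so `CRV h C (h⁻¹ X_j) = ε_j² NKs`. With `a := NKs + tr (χ K g K) ≥ 0`
and `0 ≤ tr (χ K g K) ≤ tr (g K) tr (χ K)` (`trb_le` there for `h`; for semidefinite `g` write `K = Sᴴ S`): `|ε_j² NKs| ≤ ε_j (ε_j a) + (ε_j t)(ε_j tr (χ K)) ≤ ε_j ERR + (s + 1) ε_j tr (χ K)`. WCC for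
`Φ x Y = |CRV h C (h⁻¹ Y) x|`, `E_j` = the right side (`err`, `ch`). -/
def S_FCR : Prop := ∀ {n m : ℕ} (T : Set (Cn n)) {G : Type u} [Group G]
  (R : G → Cn n → Cn n → Prop) (H : Cn n → Matrix (Fin n) (Fin n) ℂ)
  (σ : Cn n → Matrix (Fin n) (Fin m) ℂ) (h : Cn n → Matrix (Fin m) (Fin m) ℂ)
  (χ : Cn n → Matrix (Fin n) (Fin n) ℂ) (c : ℝ) (ψ : Cn n → ℝ), FDat T R H σ h χ c ψ →
  ∀ (Γ : Fin m → Cn n → Matrix (Fin m) (Fin m) ℂ)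
    (C : Fin m → Fin m → Cn n → Matrix (Fin m) (Fin m) ℂ), CF T σ h Γ C →
  ∀ (κ : Cn n → ℝ) (X : Cn n → Matrix (Fin m) (Fin m) ℂ) (s : ℝ) (S N : ℕ → ℝ)
    (φ : ℕ → Cn n → ℝ) (H' : ℕ → Cn n → Matrix (Fin n) (Fin n) ℂ) (ε : ℕ → ℝ)
    (Q : ℕ → Cn n → Matrix (Fin n) (Fin n) ℂ), LimF T R κ H σ h χ X s S N φ H' ε Q →
  ∀ x ∈ T, CRV h C ((h x)⁻¹ * X x) x = 0

/-- FTR. The torsion of the target vanishes on `(im σ, im X)`. PROOF (see `htor` in `Helper20/TRB/TLP.lean`, and `tau_diag`, `pt_deriv` in `Helper57/HX/Sdb.lean`). `X_j f b = ∑ i, w_j f i σ i b` and `∑ a, σ k a • Γ_a = GamE h k`, so at `Y = X_j` the sum is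
`∑ i, w_j f i ((σ GamE h k) i p - (σ GamE h i) k p) = ∑ i, w_j f i ((tauS k) i p - (tauS i) k p)` (`CF.sym`, and `Gam Q k i = Gam Q i k` as `Q` is closed). First half: `(w_j tauS k) f p = (ε_j h σᴴ K τ_k) f p`, `|..|² ≤ const ε_j tr (τ_k h τ_kᴴ K) (ε_j t)` (`cs_entry`, `tr_h`) `≤ const tr (Q H⁻¹) (ε_j AAs) (s + 1)` (`tau_diag`).
Second half: `∑ i, w_j f i (τ_i) k p`, `K = Sᴴ S`: `= ε_j ∑_i (h σᴴ Sᴴ S)_(f i) (τ_i)_(k p)`, `|..|² ≤ ε_j |(h σᴴ Sᴴ)_f|² · ε_j ∑_a |(∑_i S a i τ_i)_(k p)|²`, and `∑_a |(Z_a)_(k p)|² ≤ const ∑_a tr (Z_a h Z_aᴴ H⁻¹) ≤ const tr (Q H⁻¹) ∑_a tr (Z_a h Z_aᴴ K) = const tr (Q H⁻¹) AAs`. WCC with `E_j = Φ x (X_j x)` and `tend` (bounded `Φ`: `Φ ≤ M`, `Φ² ≤ g a`).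
USES: `FDB`, `FCL` only for continuity. -/
def S_FTR : Prop := ∀ {n m : ℕ} (T : Set (Cn n)) {G : Type u} [Group G]
  (R : G → Cn n → Cn n → Prop) (H : Cn n → Matrix (Fin n) (Fin n) ℂ)
  (σ : Cn n → Matrix (Fin n) (Fin m) ℂ) (h : Cn n → Matrix (Fin m) (Fin m) ℂ)
  (χ : Cn n → Matrix (Fin n) (Fin n) ℂ) (c : ℝ) (ψ : Cn n → ℝ), FDat T R H σ h χ c ψ →
  ∀ (Γ : Fin m → Cn n → Matrix (Fin m) (Fin m) ℂ)
    (C : Fin m → Fin m → Cn n → Matrix (Fin m) (Fin m) ℂ), CF T σ h Γ C →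
  ∀ (κ : Cn n → ℝ) (X : Cn n → Matrix (Fin m) (Fin m) ℂ) (s : ℝ) (S N : ℕ → ℝ)
    (φ : ℕ → Cn n → ℝ) (H' : ℕ → Cn n → Matrix (Fin n) (Fin n) ℂ) (ε : ℕ → ℝ)
    (Q : ℕ → Cn n → Matrix (Fin n) (Fin n) ℂ), LimF T R κ H σ h χ X s S N φ H' ε Q →
  ∀ x ∈ T, ∀ (k : Fin n) (f p : Fin m),
    ∑ a, ∑ b, σ x k a * X x f b * (Γ a x b p - Γ b x a p) = 0

/-- FTB. The trace bound for the complement, and (second part) nonpositive holomorphic sectional curvature on `im X`.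
PROOF. `p = X · p₁`, `L_j := 1 - σ p₁(X_j) w_j` (`n × n`), `L_j σ = σ (1 - p(X_j))`. `TRS` at `x` for `L_jᴴ K L_j ≥ 0`: `0 ≤ CRV h C ((L_j σ)ᴴ K (L_j σ)) + tr (χ L_jᴴ K (L_j g L_jᴴ) K L_j)`, `L_j g L_jᴴ = (σ (1 - p(X_j))) h (..)ᴴ`,
and `tr (χ L_jᴴ K Y K L_j) = tr ((L_j χ L_jᴴ) K Y K)`. `L_j χ L_jᴴ - χ = - B w_j χ - χ w_jᴴ Bᴴ + B w_j χ w_jᴴ Bᴴ` (`B = σ p₁(X_j)` bounded on compact sets), `w_j χ w_jᴴ = ε_j² h σᴴ K χ K σ h ≤ (ε_j tr (χ K)) X_j h` (`K χ K ≤ tr (χ K) K`), so its entries are `≤ b e_j`, `e_j := ε_j tr (χ K_j)`, and those of `w_j χ` are `≤ b √e_j`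
(`χ = Sᴴ S`, Cauchy–Schwarz). So `Φ x Y := -(CRV h C ((σ (1 - p(Y)))ᴴ K (σ (1 - p(Y)))) x + tr (χ K (σ (1 - p Y)) h (σ (1 - p Y))ᴴ K).re)` is `≤ b' (√e_j + e_j)` at `Y = X_j` on a compact neighbourhood of `x`; WCC with `E_j := max 0 (Φ x (X_j x))`, `∫_C dn (√e_j + e_j) → 0` by `ch` and `tend` (`g = 1`). Second part: `TRS` for the
rank one matrix `uᴴ u`, `u = e w_j` (row `e`), `u σ = e X_j`: `(TT (RC h C x) (e X_j) ..).re ≤ χ(u, u) g(u, u) ≤ b e_j`. -/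
def S_FTB : Prop := ∀ {n m : ℕ} (T : Set (Cn n)) {G : Type u} [Group G]
  (R : G → Cn n → Cn n → Prop) (H : Cn n → Matrix (Fin n) (Fin n) ℂ)
  (σ : Cn n → Matrix (Fin n) (Fin m) ℂ) (h : Cn n → Matrix (Fin m) (Fin m) ℂ)
  (χ : Cn n → Matrix (Fin n) (Fin n) ℂ) (c : ℝ) (ψ : Cn n → ℝ), FDat T R H σ h χ c ψ →
  ∀ (Γ : Fin m → Cn n → Matrix (Fin m) (Fin m) ℂ)
    (C : Fin m → Fin m → Cn n → Matrix (Fin m) (Fin m) ℂ), CF T σ h Γ C →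
  ∀ (κ : Cn n → ℝ) (X : Cn n → Matrix (Fin m) (Fin m) ℂ) (s : ℝ) (S N : ℕ → ℝ)
    (φ : ℕ → Cn n → ℝ) (H' : ℕ → Cn n → Matrix (Fin n) (Fin n) ℂ) (ε : ℕ → ℝ)
    (Q : ℕ → Cn n → Matrix (Fin n) (Fin n) ℂ), LimF T R κ H σ h χ X s S N φ H' ε Q →
  (∀ p : Polynomial ℝ, p.eval 0 = 0 → ∀ x ∈ T, ∀ K : Matrix (Fin n) (Fin n) ℂ,
    K.PosSemidef →
    0 ≤ CRV h C ((σ x * (1 - Polynomial.aeval (X x) p))ᴴ * K *
        (σ x * (1 - Polynomial.aeval (X x) p))) x +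
      (Matrix.trace (χ x * K * (σ x * (1 - Polynomial.aeval (X x) p) * h x *
        (σ x * (1 - Polynomial.aeval (X x) p))ᴴ) * K)).re) ∧
  ∀ x ∈ T, ∀ e : Fin m → ℂ, (TT (RC h C x) (e ᵥ* X x) (e ᵥ* X x) (e ᵥ* X x) (e ᵥ* X x)).re ≤ 0

/-- The span of the rows of `σ x` and `P x`. -/
def Sx {n m : ℕ} (σ : Cn n → Matrix (Fin n) (Fin m) ℂ) (P : Cn n → Matrix (Fin m) (Fin m) ℂ)
    (x : Cn n) : Submodule ℂ (Fin m → ℂ) :=
  Submodule.span ℂ ((Set.range fun i => σ x i) ∪ Set.range fun i => P x i)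

/-- FCO. The curvature commutes with `P`, and the Bianchi identity, for the form slots in `Sx`. PROOF. `C(u, w) := ∑ u_a conj(w_b) C_ab`; `TT (RC h C x) a b u w = - a C(u, w) h bᴴ`. (1) `P` is holomorphic and `h`-selfadjoint: `P RE k l = RE k l P` (`SBET` (1) in
`Helper82/HB/SBET.lean`, or `S_PARP`-argument), i.e. `P C(σ_k, σ_l) = C(σ_k, σ_l) P`; with `P h = h Pᴴ` this is the first identity for `u = σ_k`, `w = σ_l`. (2) Closure: the identity is linear in `u`; for `u = e ᵥ* X x` use WCC with `Φ x Y = ‖(first identity for u = e ᵥ* Y, w = σ_l)‖`, which is `0` at `Y = X_j`, since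
`e ᵥ* X_j = (e ᵥ* w_j) ᵥ* σ`, and `E = 0`. The rows of `P = aeval X p = p₁(X) X` are combinations of rows of `X`. Then the same for `w` (conjugate linear). (3) `FTR` multiplied by `p₁(X)`: `∑ σ k a P f b (Γ_a b q - Γ_b a q) = 0` on `T`; apply `cdb l` (`σ`, `P` holomorphic, `CF.dbG`):
`∑ σ k a P f b conj(σ l d) (C_ad b q - C_bd a q) = 0`, i.e. `(f P) C(σ_k, σ_l) = σ_k C(f P, σ_l)`: the second identity for `u = σ_k`, `w = σ_l`. (4) Closure as in (2) for `u`, then for `w`. -/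
def S_FCO : Prop := ∀ {n m : ℕ} (T : Set (Cn n)) {G : Type u} [Group G]
  (R : G → Cn n → Cn n → Prop) (H : Cn n → Matrix (Fin n) (Fin n) ℂ)
  (σ : Cn n → Matrix (Fin n) (Fin m) ℂ) (h : Cn n → Matrix (Fin m) (Fin m) ℂ)
  (χ : Cn n → Matrix (Fin n) (Fin n) ℂ) (c : ℝ) (ψ : Cn n → ℝ), FDat T R H σ h χ c ψ →
  ∀ (Γ : Fin m → Cn n → Matrix (Fin m) (Fin m) ℂ)
    (C : Fin m → Fin m → Cn n → Matrix (Fin m) (Fin m) ℂ), CF T σ h Γ C →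
  ∀ (κ : Cn n → ℝ) (X : Cn n → Matrix (Fin m) (Fin m) ℂ) (s : ℝ) (S N : ℕ → ℝ)
    (φ : ℕ → Cn n → ℝ) (H' : ℕ → Cn n → Matrix (Fin n) (Fin n) ℂ) (ε : ℕ → ℝ)
    (Q : ℕ → Cn n → Matrix (Fin n) (Fin n) ℂ), LimF T R κ H σ h χ X s S N φ H' ε Q →
  (∀ x ∈ T, ∀ (k : Fin n) (f p : Fin m),
    ∑ a, ∑ b, σ x k a * X x f b * (Γ a x b p - Γ b x a p) = 0) →
  ∀ (P : Cn n → Matrix (Fin m) (Fin m) ℂ) (p : Polynomial ℝ), p.eval 0 = 0 →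
  (∀ x, P x = Polynomial.aeval (X x) p) → (∀ i j, DifferentiableOn ℂ (fun x => P x i j) T) →
  (∀ x ∈ T, P x * P x = P x) → (∀ x ∈ T, P x * h x = h x * (P x)ᴴ) →
  ∀ x ∈ T, ∀ u ∈ Sx σ P x, ∀ w ∈ Sx σ P x, ∀ a b : Fin m → ℂ,
    TT (RC h C x) (a ᵥ* P x) b u w = TT (RC h C x) a (b ᵥ* P x) u w ∧
    TT (RC h C x) (a ᵥ* P x) b u w = TT (RC h C x) u b (a ᵥ* P x) w

/-- FNU. The nullity (pointwise algebra). Model `tnul` (`Helper20/TRB/TNUL.lean`). PROOF. On `im P` (all four slots) `R` has the Kähler symmetries (second identity, and its conjugate), so with `R'` := `R` with all slots projected by `P`, `main_le` (as in `tnul`) gives `TT R f f f f = 0` for `f ∈ im P`, and `polar`: `TT R = 0` on `im P`.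
For `x = x P + x''`, `x'' = x - x P ∈ V`: `TT R (a P) b x'' y = TT R (a P) (b P) x'' y` (first identity, `P² = P`) `= TT R x'' (b P) (a P) y` (second) `= TT R (x'' P) b (a P) y = 0` (first). So `TT R (a P) b x y = TT R (a P) (b P) (x P) y`; conjugate symmetry and the same for `y'' = y - y P`: it is `TT R (a P) (b P) (x P) (y P) = 0`. -/
def S_FNU : Prop := ∀ {m : ℕ} (R : Fin m → Fin m → Fin m → Fin m → ℂ)
  (h P A : Matrix (Fin m) (Fin m) ℂ) (V : Submodule ℂ (Fin m → ℂ)) (c : ℝ),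
  (∀ i j k l, conj (R i j k l) = R j i l k) → h.PosDef → P * P = P → P * h = h * Pᴴ →
  A * P = A → 0 < c → (A * h - (c : ℂ) • (P * h)).PosSemidef →
  (∀ a : Fin m → ℂ, a ᵥ* P ∈ V) →
  (∀ x ∈ V, ∀ y ∈ V, ∀ a b : Fin m → ℂ, TT R (a ᵥ* P) b x y = TT R a (b ᵥ* P) x y ∧
    TT R (a ᵥ* P) b x y = TT R x b (a ᵥ* P) y) →
  (∀ w : Fin m → ℂ, w ᵥ* P = w → (TT R w w w w).re ≤ 0) →
  (∑ i, ∑ j, ∑ k, ∑ l, (h⁻¹ * A) j i * (h⁻¹ * A) l k * R i j k l).re = 0 →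
  ∀ x ∈ V, ∀ y ∈ V, ∀ a b : Fin m → ℂ, TT R (a ᵥ* P) b x y = 0

/-- FTQ. Flatness and the trace bound for `σ (1 - P)` (pointwise). PROOF. `RE h k l x = C(σ_k, σ_l)` (`CF.cur`), so `P RE k l h = 0` (hypothesis with `u = σ_k`, `w = σ_l`), `P RE k l = 0`; by the first identity also `RE k l P = 0`. So `NKK (σ (1 - P)) h K x = NKK σ h K x` (`(1 - P) RE h (1 - P)ᴴ = RE h`, `P h = h Pᴴ`). And `NKK σ h K x = CRV h C (σᴴ K σ) x =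
- ∑_ij (TT R y_j y_j y_i y_i).re`, `K = Sᴴ S`, `y_i = (S i) ᵥ* σ ∈ Sx`; in each slot `y = y P + y''`, `y'' ∈ Sx`, and the terms with a slot in `im P` vanish (slot 1: hypothesis; slot 2: first identity; slot 3: second identity from the right to the left; slot 4: conjugation, `CF.her`). So it is `CRV h C ((σ (1 - P))ᴴ K σ (1 - P)) x`, and the last
hypothesis is the claim. -/
def S_FTQ : Prop := ∀ {n m : ℕ} (T : Set (Cn n)) (σ : Cn n → Matrix (Fin n) (Fin m) ℂ)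
  (h : Cn n → Matrix (Fin m) (Fin m) ℂ) (χ : Cn n → Matrix (Fin n) (Fin n) ℂ)
  (Γ : Fin m → Cn n → Matrix (Fin m) (Fin m) ℂ)
  (C : Fin m → Fin m → Cn n → Matrix (Fin m) (Fin m) ℂ)
  (P : Cn n → Matrix (Fin m) (Fin m) ℂ), (∀ x ∈ T, (h x).PosDef) → CF T σ h Γ C →
  (∀ x ∈ T, P x * P x = P x) → (∀ x ∈ T, P x * h x = h x * (P x)ᴴ) →
  (∀ x ∈ T, ∀ u ∈ Sx σ P x, ∀ w ∈ Sx σ P x, ∀ a b : Fin m → ℂ,
    TT (RC h C x) (a ᵥ* P x) b u w = TT (RC h C x) a (b ᵥ* P x) u w ∧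
    TT (RC h C x) (a ᵥ* P x) b u w = TT (RC h C x) u b (a ᵥ* P x) w ∧
    TT (RC h C x) (a ᵥ* P x) b u w = 0) →
  (∀ x ∈ T, ∀ K : Matrix (Fin n) (Fin n) ℂ, K.PosSemidef →
    0 ≤ CRV h C ((σ x * (1 - P x))ᴴ * K * (σ x * (1 - P x))) x +
      (Matrix.trace (χ x * K * (σ x * (1 - P x) * h x * (σ x * (1 - P x))ᴴ) * K)).re) →
  (∀ x ∈ T, ∀ k l, P x * RE h k l x = 0) ∧ TRS T (fun x => σ x * (1 - P x)) h χ

/-- FBET. The forms `β` and `g'`. COPY of `sbet` (`Helper82/HB/SBET.lean`) with `SF T R σ h` for `SD T R σ h`; `SD` for `σ P`: the curvature term of `NegS` vanishes (`flat`). -/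
def S_FBET : Prop := ∀ {n m : ℕ} (T : Set (Cn n)) {G : Type u} [Group G]
  (R : G → Cn n → Cn n → Prop), Et T R → ∀ (σ : Cn n → Matrix (Fin n) (Fin m) ℂ)
  (h P : Cn n → Matrix (Fin m) (Fin m) ℂ) (r : ℕ), SF T R σ h → ParS r T R σ h P →
  SD T R (fun x => σ x * P x) h ∧ SF T R (fun x => σ x * (1 - P x)) h ∧
  ∀ x ∈ T, gS σ h x = gS (fun y => σ y * P y) h x + gS (fun y => σ y * (1 - P y)) h x ∧
    (gS (fun y => σ y * P y) h x).PosSemidef ∧ (gS (fun y => σ y * (1 - P y)) h x).PosSemidef ∧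
    (∀ k l, RE h k l x * P x = 0) ∧ (∀ l, cdM l P x = GamE h l x * P x - P x * GamE h l x) ∧
    ∀ (ε : ℝ) (Q : Cn n → Matrix (Fin n) (Fin n) ℂ),
      XS ε (fun y => σ y * P y) h Q x = P x * XS ε σ h Q x * P x ∧
      ε * tS (fun y => σ y * (1 - P y)) h Q x = (Matrix.trace ((1 - P x) * XS ε σ h Q x)).re ∧
      ε * tS σ h Q x = (Matrix.trace (XS ε σ h Q x)).re

/-- FPV. The projector and the sequences for the volume. Model `hlim` (`Helper29/HL/HLIM.lean`) and `tcor` (`Helper27/TRB/Cor.lean`). PROOF. `FLC`, `FSP`, `hch` (`Helper29/HL/HCH.lean`: `P = aeval X p`), `FCR`, `FTR`, `FTB`, `FCO`; `FNU` for `R = RC h C x`, `V = Sx σ P x`, `A = X x` (`a ᵥ* P x ∈ Sx`: rows of `P`; for `w P = w`: `w = (w p₁(X)) X`, so `FTB` (2)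
applies; `CRV` is minus the sum in `FNU`; `CF.her`), `FTQ`. `sdP`: holomorphic; `inv` by `hgS` of `hlim` (`gS (σ P) h = ∑ p_i σ (X^i h) σᴴ`); `neg`: the curvature term is `0` (`flat`). `chf`: `hHCLO` (`Helper15/HB/HCLO.lean`) for the pair `(σ P, h)` and `P` (`σ P P = σ P`). `sfQ`, `sdP`: `FBET` (once `ParS` is known). The sequences: `H'_j` of `LimV` is `tw χ (ε j) (H' j)`,
`N_j` of `LimV` is `N j + (ε j)⁻¹ c`, `φ` as in `FFM`; `limN`: `ε_j N_j + c → c`. -/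
def S_FPV : Prop := ∀ {n m : ℕ}, 0 < n → ∀ (T : Set (Cn n)) {G : Type u} [Group G]
  (R : G → Cn n → Cn n → Prop) (H : Cn n → Matrix (Fin n) (Fin n) ℂ)
  (σ : Cn n → Matrix (Fin n) (Fin m) ℂ) (h : Cn n → Matrix (Fin m) (Fin m) ℂ)
  (χ : Cn n → Matrix (Fin n) (Fin n) ℂ) (c : ℝ) (ψ : Cn n → ℝ), FDat T R H σ h χ c ψ →
  ∀ (Γ : Fin m → Cn n → Matrix (Fin m) (Fin m) ℂ)
    (C : Fin m → Fin m → Cn n → Matrix (Fin m) (Fin m) ℂ), CF T σ h Γ C →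
  ∀ κ, IsPUE T R κ →
  ∃ (r : ℕ) (X P : Cn n → Matrix (Fin m) (Fin m) ℂ) (s : ℝ) (N : ℕ → ℝ) (φ : ℕ → Cn n → ℝ)
    (H' : ℕ → Cn n → Matrix (Fin n) (Fin n) ℂ) (ε : ℕ → ℝ)
    (Q : ℕ → Cn n → Matrix (Fin n) (Fin n) ℂ), LimV r T R κ H σ h χ c X P s N φ H' ε Q

end Pool.Agent.Helper18.FM
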