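import Pool.Agent.Helper18.FM.GoalsB
import Pool.Agent.Helper45.Stmt.DefsFM

/-!
# FM, goals C: averages, volume, the output, the link to manifolds
-/

open Complex Metric Set Filter Topology MeasureTheory
open scoped ContDiff ComplexConjugate ComplexOrder Manifold Matrix

namespace Pool.Agent.Helper18.FM

open Pool.Agent.Helper95.Lin Pool.Agent.Helper16.Abund Pool.Agent.Helper92.Orb
  Pool.Agent.Helper10.SP Pool.Agent.Helper95.RK Pool.Agent.Helper57.HS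
  Pool.Agent.Helper15.HS Pool.Agent.Helper10.HS Pool.Agent.Helper15.GS Pool.Agent.Helper57.RBC
  Pool.Agent.Helper82.HB
open Pool.Agent.Helper10.RBC (dn)
open Pool.Agent.Helper29.HB (WL)
open Pool.Agent.Helper27.TRB (tw)
open Pool.Agent.Helper45.Stmt (PullRBC CurvAddPos)

universe u v

/-- FAV. Averages of continuous functions of `X_j`. COPY of `sav` (`Helper40/HB/SAV.lean`) with `LimV` for `LimS` (fields used: `cX`, `bX`, `conv`, `tke`, `eps`; from `FDat`: `ket`, `sf`). -/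
def S_FAV : Prop := ∀ {n m : ℕ} (T : Set (Cn n)) {G : Type u} [Group G]
  (R : G → Cn n → Cn n → Prop) (H : Cn n → Matrix (Fin n) (Fin n) ℂ)
  (σ : Cn n → Matrix (Fin n) (Fin m) ℂ) (h : Cn n → Matrix (Fin m) (Fin m) ℂ)
  (χ : Cn n → Matrix (Fin n) (Fin n) ℂ) (c : ℝ) (ψ : Cn n → ℝ), FDat T R H σ h χ c ψ →
  ∀ κ, IsPUE T R κ → ∀ (r : ℕ) (X P : Cn n → Matrix (Fin m) (Fin m) ℂ) (s : ℝ) (N : ℕ → ℝ)
    (φ : ℕ → Cn n → ℝ) (H' : ℕ → Cn n → Matrix (Fin n) (Fin n) ℂ) (ε : ℕ → ℝ)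
    (Q : ℕ → Cn n → Matrix (Fin n) (Fin n) ℂ), LimV r T R κ H σ h χ c X P s N φ H' ε Q →
  ∀ F : Cn n → Matrix (Fin m) (Fin m) ℂ → ℝ,
  ContinuousOn (fun q : Cn n × Matrix (Fin m) (Fin m) ℂ => F q.1 q.2) (T ×ˢ univ) →
  ∀ a b : ℝ, (∀ x ∈ T, a ≤ F x (X x) ∧ F x (X x) ≤ b) → ∀ η : ℝ, 0 < η → ∀ᶠ j in atTop,
    a - η ≤ avE T κ (Q j) (fun x => F x (XS (ε j) σ h (Q j) x)) ∧
    avE T κ (Q j) (fun x => F x (XS (ε j) σ h (Q j) x)) ≤ b + η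

/-- FND. `sup ε_j tr (g' Q_j⁻¹) → 0`. COPY of `snd` (`Helper82/HB/SND.lean`), with `FLG` for `σ (1 - P)` (`par.sfQ`, `par.trQ`; `η = ε_j H'_j`, `η - χ ≥ 0` is `geχ`), `tks`, `FAV`. -/
def S_FND : Prop := ∀ {n m : ℕ}, 0 < n → ∀ (T : Set (Cn n)) {G : Type u} [Group G]
  (R : G → Cn n → Cn n → Prop) (H : Cn n → Matrix (Fin n) (Fin n) ℂ)
  (σ : Cn n → Matrix (Fin n) (Fin m) ℂ) (h : Cn n → Matrix (Fin m) (Fin m) ℂ)
  (χ : Cn n → Matrix (Fin n) (Fin n) ℂ) (c : ℝ) (ψ : Cn n → ℝ), FDat T R H σ h χ c ψ →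
  ∀ κ, IsPUE T R κ → ∀ (r : ℕ) (X P : Cn n → Matrix (Fin m) (Fin m) ℂ) (s : ℝ) (N : ℕ → ℝ)
    (φ : ℕ → Cn n → ℝ) (H' : ℕ → Cn n → Matrix (Fin n) (Fin n) ℂ) (ε : ℕ → ℝ)
    (Q : ℕ → Cn n → Matrix (Fin n) (Fin n) ℂ), LimV r T R κ H σ h χ c X P s N φ H' ε Q →
  ∀ d : ℝ, 0 < d → ∀ᶠ j in atTop, ∀ x ∈ T, ε j * tS (fun y => σ y * (1 - P y)) h (Q j) x ≤ d

/-- FNK. The numerical dimension is at least `n - r`. COPY of `snk` (`Helper10/HB/SNK.lean`), with `FND`, `FAV`; `ε_j N_j → c` in the place of `ε_j N_j → 0` (`s_j = ε_j/(1 + ε_j N_j) → 0` all the same), `rho H + LM ψ = Q_j - ε_j H'_j - LM u_j ≤ Q_j - LM u_j`. -/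
def S_FNK : Prop := ∀ {n m : ℕ}, 0 < n → ∀ (T : Set (Cn n)) {G : Type u} [Group G]
  (R : G → Cn n → Cn n → Prop) (H : Cn n → Matrix (Fin n) (Fin n) ℂ)
  (σ : Cn n → Matrix (Fin n) (Fin m) ℂ) (h : Cn n → Matrix (Fin m) (Fin m) ℂ)
  (χ : Cn n → Matrix (Fin n) (Fin n) ℂ) (c : ℝ) (ψ : Cn n → ℝ), FDat T R H σ h χ c ψ →
  ∀ κ, IsPUE T R κ → ∀ (k : ℕ) (p : Polynomial ℝ), 0 < p.eval 0 →
  (∀ s : ℝ, VolP T κ H s = s ^ k * p.eval s) →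
  ∀ (r : ℕ) (X P : Cn n → Matrix (Fin m) (Fin m) ℂ) (s : ℝ) (N : ℕ → ℝ)
    (φ : ℕ → Cn n → ℝ) (H' : ℕ → Cn n → Matrix (Fin n) (Fin n) ℂ) (ε : ℕ → ℝ)
    (Q : ℕ → Cn n → Matrix (Fin n) (Fin n) ℂ), LimV r T R κ H σ h χ c X P s N φ H' ε Q →
  k ≤ r

/-- FVP. Positivity of the volume. COPY of `svp` (`Helper40/HB/SVP.lean`): now `∫ κ det (Q_j + β) = ∫ κ det ((1 + ε_j N_j) rho H + ε_j H + β)` converges to `∫ κ det ((1 + c) rho H + β)`. -/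
def S_FVP : Prop := ∀ {n m : ℕ}, 0 < n → ∀ (T : Set (Cn n)) {G : Type u} [Group G]
  (R : G → Cn n → Cn n → Prop) (H : Cn n → Matrix (Fin n) (Fin n) ℂ)
  (σ : Cn n → Matrix (Fin n) (Fin m) ℂ) (h : Cn n → Matrix (Fin m) (Fin m) ℂ)
  (χ : Cn n → Matrix (Fin n) (Fin n) ℂ) (c : ℝ) (ψ : Cn n → ℝ), FDat T R H σ h χ c ψ →
  ∀ κ, IsPUE T R κ → ∀ (k : ℕ) (p : Polynomial ℝ), 0 < p.eval 0 →
  (∀ s : ℝ, VolP T κ H s = s ^ k * p.eval s) →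
  ∀ (r : ℕ) (X P : Cn n → Matrix (Fin m) (Fin m) ℂ) (s : ℝ) (N : ℕ → ℝ)
    (φ : ℕ → Cn n → ℝ) (H' : ℕ → Cn n → Matrix (Fin n) (Fin n) ℂ) (ε : ℕ → ℝ)
    (Q : ℕ → Cn n → Matrix (Fin n) (Fin n) ℂ), LimV r T R κ H σ h χ c X P s N φ H' ε Q →
  k ≤ r →
  0 < ∫ x in T, κ x *
    (((1 + c : ℝ) : ℂ) • rho H x + gS (fun y => σ y * P y) h x).det.re

/-- FB3. `rho H + LM ψ' + β > 0` for some `ψ'`. Models `xbk` (`Helper57/HX/Bk.lean`), `tb3` (`Helper40/TRB/TB3.lean`). PROOF. `β := gS (σ P) h`, `B := β + χ` (closed: `par.chf`, `FFM` (1); invariant; psd). (1) `∫ κ det (rho H + B) = ∫ κ det ((1 + c) rho H + β) > 0` (`MOMG`, `chi'`; `PUE`: some `κ` exists; other `κ`: hypothesis for every `κ`). (2) `HB1` (`S_HB1` of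
`Helper82/HB/GoalsB.lean`, existence for `H` from `FEX`): for `0 < δ ≤ 1` a metric with `rho Q = Q - B - δ H`; `HVB`: `V0 ≤ vol Q`, `∫ κ det (Q + H) ≤ V1`. (3) `t := tS σ h Q`: `-1 ≤ trL Q (log (t + 1))` (`FLG`, `η = B + δ H`, `η - χ = β + δ H ≥ 0`), so `t + 1 ≤ b` uniformly in `δ` (`SBG`, `DENS`, as in `xbk`/`HB3`). (4) `g ≤ t Q ≤ b Q` (`SDM` (1)), `c₀ > 0` with
`c₀ H ≤ rho H + LM ψ + g` (compactness), `δ := min 1 (c₀/(2 b))`: `Q + b⁻¹ (rho H + LM ψ) ≥ (c₀/b) H`, and `Q = rho Q + B + δ H = rho H + LM (ld Q - ld H) + β + c rho H + LM (c ψ) + δ H`: `a rho H + LM w + β ≥ (c₀/b - δ) H > 0`, `a = 1 + c + b⁻¹ ≥ 1`. Divide by `a` and add `(1 - a⁻¹) β ≥ 0`: `ψ' = w/a`. -/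
def S_FB3 : Prop := ∀ {n m : ℕ}, 0 < n → ∀ (T : Set (Cn n)) {G : Type u} [Group G]
  (R : G → Cn n → Cn n → Prop) (H : Cn n → Matrix (Fin n) (Fin n) ℂ)
  (σ : Cn n → Matrix (Fin n) (Fin m) ℂ) (h : Cn n → Matrix (Fin m) (Fin m) ℂ)
  (χ : Cn n → Matrix (Fin n) (Fin n) ℂ) (c : ℝ) (ψ : Cn n → ℝ), FDat T R H σ h χ c ψ →
  ∀ (r : ℕ) (P : Cn n → Matrix (Fin m) (Fin m) ℂ), ParF r T R H σ h χ P →
  (∀ κ, IsPUE T R κ → 0 < ∫ x in T, κ x *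
    (((1 + c : ℝ) : ℂ) • rho H x + gS (fun y => σ y * P y) h x).det.re) →
  ∃ ψ' : Cn n → ℝ, InvF T R ψ' ∧
    ∀ x ∈ T, (rho H x + LM ψ' x + gS (fun y => σ y * P y) h x).PosDef

/-- FOUT. The data of HB for `(σ P, h)`. Model `tcor` (end), `tout` (`Helper27/TRB`). PROOF. `κ` from `PUE`; `k`, `p` with `VolP T κ H s = s^k p(s)`, `p(0) > 0` (as in `tcor`); `FPV`, `FNK`, `FVP`; the integral does not depend on `κ` (`KAPI`), `FB3`; `sd` is `par.sdP`. -/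
def S_FOUT : Prop := ∀ {n m : ℕ}, 0 < n → ∀ (T : Set (Cn n)) {G : Type u} [Group G]
  (R : G → Cn n → Cn n → Prop) (H : Cn n → Matrix (Fin n) (Fin n) ℂ)
  (σ : Cn n → Matrix (Fin n) (Fin m) ℂ) (h : Cn n → Matrix (Fin m) (Fin m) ℂ)
  (χ : Cn n → Matrix (Fin n) (Fin n) ℂ) (c : ℝ) (ψ : Cn n → ℝ), FDat T R H σ h χ c ψ →
  ∀ (Γ : Fin m → Cn n → Matrix (Fin m) (Fin m) ℂ)
    (C : Fin m → Fin m → Cn n → Matrix (Fin m) (Fin m) ℂ), CF T σ h Γ C →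
  ∃ (P : Cn n → Matrix (Fin m) (Fin m) ℂ) (ψ' : Cn n → ℝ),
    HDat T R H (fun x => σ x * P x) h ψ'

/-! ## The link -/

/-- The differential of `F`: row `i` is the image of `∂_i`. -/
noncomputable def dF {n m : ℕ} (F : Cn n → Cn m) (x : Cn n) : Matrix (Fin n) (Fin m) ℂ :=
  Matrix.of fun i a => fderiv ℂ F x (Pi.single i 1) a

/-- FRE. The connection data of a map. PROOF. Chain rule for a holomorphic `F`: `cd k (f ∘ F) = ∑ a, (dF F) k a (cd a f) ∘ F`, `cdb l (f ∘ F) = ∑ b, conj ((dF F) l b) (cdb b f) ∘ F` (real Fréchet derivatives; `fderiv ℝ F = fderiv ℂ F` restricted). So `GamE (hN ∘ F) k = ∑ a, (dF) k a • Gam hN a ∘ F`;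
`RE h k l = cdbM l (GamE h k)`, `dF` holomorphic. `her`: `S_ECAL`/`gamE`, `RE_herm` (`Helper82/HB/Cal.lean`) for `hN` and `n = m` at `F x` (`RE hN a b = cdbM b (Gam hN a)`). `sym`: `cd k ((dF F) i a) = 2 ∂_k ∂_i F_a` is symmetric. -/
def S_FRE : Prop := ∀ {n m : ℕ} (V : Set (Cn n)) (W : Set (Cn m)) (F : Cn n → Cn m)
  (hN : Cn m → Matrix (Fin m) (Fin m) ℂ), IsOpen V → IsOpen W → MapsTo F V W →
  DifferentiableOn ℂ F V → (∀ y ∈ W, (hN y).PosDef) →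
  (∀ i j, ContDiffOn ℝ ∞ (fun y => hN y i j) W) →
  (∀ i a, DifferentiableOn ℂ (fun x => dF F x i a) V) ∧
  (∀ a b, ContDiffOn ℝ ∞ (fun x => hN (F x) a b) V) ∧
  CF V (dF F) (fun x => hN (F x)) (fun a x => Gam hN a (F x))
    (fun a b x => cdbM b (Gam hN a) (F x))

/-- FUN. Gluing over a disjoint union of balls (model `unis`, `Helper45/HB/UNIS.lean`), and the trace bound: `NKK σ h K x = - ∑ crv(u_a F_*, ..)`, `K = ∑ u_aᴴ u_a`. -/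
def S_FUN : Prop := ∀ {n m : ℕ} {G : Type u} {M : Type v} [Group G] [MulAction G M]
  [TopologicalSpace M] [T2Space M] [ConnectedSpace M] [ChartedSpace (Fin n → ℂ) M]
  [IsManifold 𝓘(ℂ, Fin n → ℂ) ω M] {om g : M → Matrix (Fin n) (Fin n) ℂ}, 0 < n →
  DataH n G M om → ∀ (v : M → ℝ) (c : ℝ), CanMetric n M v → PullRBC n m M g v c →
  ∃ (T : Set (Cn n)) (E : Cn n → M) (σ : Cn n → Matrix (Fin n) (Fin m) ℂ)
    (h : Cn n → Matrix (Fin m) (Fin m) ℂ) (Γ : Fin m → Cn n → Matrix (Fin m) (Fin m) ℂ)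
    (C : Fin m → Fin m → Cn n → Matrix (Fin m) (Fin m) ℂ), Par n E T ∧
    (∃ K ⊆ T, IsCompact K ∧ ∀ p : M, ∃ (γ : G), ∃ x ∈ K, γ • p = E x) ∧
    (∀ i a, DifferentiableOn ℂ (fun x => σ x i a) T) ∧ (∀ x ∈ T, (h x).PosDef) ∧
    (∀ a b, ContDiffOn ℝ ∞ (fun x => h x a b) T) ∧ (∀ x ∈ T, pm n g E x = gS σ h x) ∧
    CF T σ h Γ C ∧ TRS T σ h (fun x => (c : ℂ) • LM (lpot n v E) x)

/-- FLK. The data on the étale relation (models `hdm` in `Helper57/HX/Hdm.lean`, `tlnk` in `Helper45/TRB/TLNK.lean`); `K` is large enough for `K om - 2 χ ≥ 0`. -/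
def S_FLK : Prop := ∀ {n m : ℕ} {G : Type u} {M : Type v} [Group G] [MulAction G M]
  [TopologicalSpace M] [T2Space M] [ConnectedSpace M] [ChartedSpace (Fin n → ℂ) M]
  [IsManifold 𝓘(ℂ, Fin n → ℂ) ω M] {om g : M → Matrix (Fin n) (Fin n) ℂ}, 0 < n →
  DataH n G M om → (∀ γ : G, InvMetric n g (fun y : M => γ • y)) →
  ∀ v : M → ℝ, CanMetric n M v →
  (∀ (γ : G) (x : M), v (γ • x) * ‖jac n (fun y : M => γ • y) x‖ ^ 2 = v x) → ∀ c : ℝ, 0 ≤ c →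
  (∀ (V : Set (Fin n → ℂ)) (E : (Fin n → ℂ) → M), Par n E V → ∀ x ∈ V, ∀ e : Fin n → ℂ,
    0 ≤ c * lev (lpot n v E) x e) → CurvAddPos n M v g →
  ∀ (T : Set (Cn n)) (E : Cn n → M) (σ : Cn n → Matrix (Fin n) (Fin m) ℂ)
    (h : Cn n → Matrix (Fin m) (Fin m) ℂ), Par n E T →
  (∃ K ⊆ T, IsCompact K ∧ ∀ p : M, ∃ (γ : G), ∃ x ∈ K, γ • p = E x) →
  (∀ i a, DifferentiableOn ℂ (fun x => σ x i a) T) → (∀ x ∈ T, (h x).PosDef) →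
  (∀ a b, ContDiffOn ℝ ∞ (fun x => h x a b) T) → (∀ x ∈ T, pm n g E x = gS σ h x) →
  TRS T σ h (fun x => (c : ℂ) • LM (lpot n v E) x) → ∃ K : ℝ, 0 < K ∧
  FDat T (RelT (G := G) T E) (fun x => (K : ℂ) • pm n om E x) σ h
    (fun x => (c : ℂ) • LM (lpot n v E) x) c (fun x => lpot n v E x - ld (pm n om E) x)

/-- The main theorem FM, internal form. PROOF (model `maint`). `n = 0`: `orb_zero`. `FUN`, `FLK`, `FOUT`, `S_MAINP`. -/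
def S_MAINF : Prop := ∀ {n m : ℕ} {G : Type u} {M : Type v} [Group G] [MulAction G M]
  [TopologicalSpace M] [T2Space M] [ConnectedSpace M] [ChartedSpace (Fin n → ℂ) M]
  [IsManifold 𝓘(ℂ, Fin n → ℂ) ω M] {om g : M → Matrix (Fin n) (Fin n) ℂ},
  DataH n G M om → (∀ γ : G, InvMetric n g (fun y : M => γ • y)) →
  ∀ v : M → ℝ, CanMetric n M v →
  (∀ (γ : G) (x : M), v (γ • x) * ‖jac n (fun y : M => γ • y) x‖ ^ 2 = v x) → ∀ c : ℝ, 0 ≤ c →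
  (∀ (V : Set (Fin n → ℂ)) (E : (Fin n → ℂ) → M), Par n E V → ∀ x ∈ V, ∀ e : Fin n → ℂ,
    0 ≤ c * lev (lpot n v E) x e) → CurvAddPos n M v g → PullRBC n m M g v c →
  OrbSemiample n G M

end Pool.Agent.Helper18.FM
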