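import Pool.Agent.Helper18.FM.Asm1
import Pool.Agent.Helper95.FM.FCR
import Pool.Agent.Helper66.FM.FNU
import Pool.Agent.Helper93.FM.FCO
import Pool.Agent.Helper83.FM.FNK
import Pool.Agent.Helper67.FM.FLC
import Pool.Agent.Helper43.FM.FB3
import Pool.Agent.Helper50.FM.FTR
import Pool.Agent.Helper22.FM.FTB
import Pool.Agent.Helper72.FM.FSEQ
import Pool.Agent.Helper18.FM.FAV
import Pool.Agent.Helper38.FM.FVP

/-! # FM: the main theorem -/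

open Complex Metric Set Filter Topology MeasureTheory
open scoped ContDiff ComplexConjugate ComplexOrder Manifold Matrix

namespace Pool.Agent.Helper18.FM

open Pool.Agent.Helper95.Lin Pool.Agent.Helper16.Abund Pool.Agent.Helper92.Orb
  Pool.Agent.Helper10.SP Pool.Agent.Helper95.RK Pool.Agent.Helper57.HS
  Pool.Agent.Helper15.HS Pool.Agent.Helper10.HS Pool.Agent.Helper15.RK
  Pool.Agent.Helper10.SP.Asm Pool.Agent.Helper15.HS.Asm Pool.Agent.Helper15.GS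
  Pool.Agent.Helper15.GS.Asm Pool.Agent.Helper57.RBC Pool.Agent.Helper15.RBC
  Pool.Agent.Helper10.RBC Pool.Agent.Helper45.RBC Pool.Agent.Helper57.RBC.Asm
  Pool.Agent.Helper10.RK.Asm Pool.Agent.Helper45.RBC.Asm Pool.Agent.Helper57.HX
  Pool.Agent.Helper57.HX.Asm Pool.Agent.Helper82.HB Pool.Agent.Helper45.HB.Asm
  Pool.Agent.Helper45.TRB.Asm Pool.Agent.Helper18.FM.Asm

universe u v

theorem t_FCR : S_FCR.{u} := Pool.Agent.Helper95.FM.FCR.t t_FCL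
theorem t_FNU : S_FNU := Pool.Agent.Helper66.FM.FNU.t
theorem t_FCO : S_FCO.{u} := Pool.Agent.Helper93.FM.FCO.t
theorem t_FAV : S_FAV.{u} := Pool.Agent.Helper18.FM.FAV.t t_NULL0 t_DETI
theorem t_FTR : S_FTR.{u} := Pool.Agent.Helper50.FM.FTR.t t_FCL t_FSP
theorem t_FTB : S_FTB.{u} := Pool.Agent.Helper22.FM.FTB.t
theorem t_FMON : S_FMON.{u} := Pool.Agent.Helper72.FM.FSEQ.fmon t_MAXF t_FCL
theorem t_FSEQ : S_FSEQ.{u} :=
  Pool.Agent.Helper72.FM.FSEQ.fseq t_MAXF t_CMP t_FCL t_FEX t_FMON t_FFM t_RFAM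
theorem t_FLC : S_FLC.{u} :=
  Pool.Agent.Helper67.FM.FLC.t t_FFM t_FSEQ t_FVC (t_RWT t_AYG) t_FVD t_FCH t_FDB t_RAC t_LIMG
    t_LOWQ
theorem t_FND : S_FND.{u} := t_FND_of t_FAV
theorem t_FNK : S_FNK.{u} :=
  Pool.Agent.Helper83.FM.FNK.t t_WIRT t_CMPG t_RHOI t_SRLV t_FND t_FAV t_FBET t_SDL
    t_RDL t_TRC t_NULL0
theorem t_FB3 : S_FB3.{u} :=
  Pool.Agent.Helper43.FM.FB3.t t_AYG t_WIRT t_RHOI t_MOMG t_NULL0 t_TRC t_RHB t_PUE t_CMPG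
    (t_SBG t_AYG) t_DENS t_TRI t_FCL t_FLG t_FEX t_FFM
theorem t_FPV : S_FPV.{u} := t_FPV_of t_FLC t_FCR t_FTR t_FTB t_FCO t_FNU
theorem t_FVP : S_FVP.{u} :=
  Pool.Agent.Helper38.FM.FVP.t t_SRLV t_FAV t_FBET t_SDL t_RHOI t_NULL0 t_DETI
theorem t_FOUT : S_FOUT.{u} := t_FOUT_of t_FPV t_FNK t_FVP t_FB3

/-- The main theorem FM. -/
theorem t_MAINF : S_MAINF.{u, v} := t_MAINF_of t_FOUT

end Pool.Agent.Helper18.FM
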